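import Pool.Agent.TH125.Sec.Main

/-!
# The Tate conjecture for powers of varieties over a base: the proof
-/

open CategoryTheory AlgebraicGeometry Finset

set_option linter.unusedSectionVars false

universe u v w

namespace Pool.Agent.TH125.Sec

open Pool.Agent.H914 Pool.Agent.H914.VarClass Pool.Agent.H914.VarClass.Obj
  Pool.Agent.H914.WeilCohomology Pool.Agent.H281R3.HT Pool.Agent.W552 Pool.Agent.TH125.Gal

variable {k : Type u} [Field k] {𝒱 : VarClass k} {ops : CycleOps 𝒱}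
  {W : WeilCohomology.{u, v} ops}

section

variable {P Q : Polarized 𝒱} {n : ℕ} {Z : 𝒱.Obj} {f : P.X ⟶ Q.X} {z : W.H (P.X.prod Q.X)}
  {J : Type} [Fintype J] {e : Module.Basis J W.K (W.H P.X)}
  {b : Module.Basis (Fin (n + 1) → J) W.K (W.H (nest ops n fun _ => P).X)}
  (hb : ∀ r, b r = mono (prj ops n fun _ => P) fun p => e (r p))
  (hmid : relPrimitive W f ≤ W.gr P.X P.X.dim)
  (hz : ∀ x, x - W.map f (W.corr z x) ∈ relPrimitive W f) (s : TB W P.X (relPrimitive W f))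
  {Γ : Type w} [Group Γ] {χ : Γ →* W.Kˣ} {ρ : Γ →* (W.H P.X ≃ₐ[W.K] W.H P.X)}
  {ρ' : Γ →* (W.H Q.X ≃ₐ[W.K] W.H Q.X)} {τ : Γ →* (W.H Z ≃ₐ[W.K] W.H Z)}
  {υ : Γ →* (W.H ((nest ops n fun _ => P).X.prod Z) ≃ₐ[W.K]
    W.H ((nest ops n fun _ => P).X.prod Z))}
  {υ' : Γ →* (W.H ((nest ops n fun _ => Q).X.prod Z) ≃ₐ[W.K]
    W.H ((nest ops n fun _ => Q).X.prod Z))}

include hb hmid hz in
/-- **The coordinates at the free positions are invariant.** -/
theorem gen_rel (hG : IsGalois W χ P.X ρ) (hG' : IsGalois W χ Q.X ρ')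
    (hf : Intertwines (W.map f) ρ' ρ) (hP : IsPowAct W P n Z ρ τ υ)
    (hQ : IsPowAct W Q n Z ρ' τ υ') (hirr : IrredAct ρ (relPrimitive W f)) {g : Γ}
    (hPL : PLAct (W.tr P.X) (relPrimitive W f) ρ g) (hχ : χ g = 1) (hυ : υ' g = 1)
    (hK : Even P.X.dim → FewRoots W.K ∧ n + 1 < Module.finrank W.K (relPrimitive W f))
    {c : W.H ((nest ops n fun _ => P).X.prod Z)} {j : ℕ} {Δ : Subgroup Γ} (hΔ : Δ.FiniteIndex)
    (hc : ∀ g ∈ Δ, υ g c = (χ g : W.K) ^ j • c)
    (hzg : ∀ g ∈ Δ, ∀ x, W.corr z (ρ g x) = ρ' g (W.corr z x))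
    (c₀ : Fin (n + 1) → Option Unit) :
    (fun r : Free c₀ → Fin s.NT => hS f z e b c c₀ fun j => s.uT (r j)) ∈
      Nod.Gen (fun _ : Fin s.NT => ())
        (Matrix.of fun i j => rform W P.X (relPrimitive W f) (s.uT i) (s.uT j))
        (fun _ : Free c₀ => ()) := by
  obtain ⟨δ, hδ, hδ0, x, hx, hgx⟩ := hPL
  have heven : (-1 : ℤ) ^ P.X.dim = 1 → Even P.X.dim := by
    intro h
    by_contra h'
    rw [(Nat.not_even_iff_odd.1 h').neg_one_pow] at h
    exact absurd h (by decide)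
  exact gen_mem (S := Free c₀) (J := Fin s.NT) (s := (-1) ^ P.X.dim)
    (μ := fun g => (χ g : W.K) ^ P.X.dim) (B := rform W P.X (relPrimitive W f))
    (neg_one_pow_eq_or ℤ _)
    (fun a b => by
      rw [rform_apply, rform_apply, rel_symm (hmid a.2) (hmid b.2)]
      push_cast
      rfl)
    (rel_nondeg hmid hz) (fun g => pow_ne_zero _ (Units.ne_zero _))
    (fun g a b => bil_act hG g a b) (SI_rhoR hG hf hirr) (g := g) (δ := ⟨δ, hδ⟩) (c := x)
    (fun h => hδ0 (congrArg Subtype.val h)) hx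
    (fun t => Subtype.ext (hgx t t.2))
    (by rw [hχ, Units.val_one, one_pow])
    (σ := twist (lam χ P c₀ j) υ')
    (by
      apply LinearMap.ext
      intro z
      rw [twist_apply, lam_apply, hχ, hυ]
      simp)
    (fun h => ⟨(hK (heven h)).1, by have := (hK (heven h)).2; omega⟩)
    ⟨Δ, hΔ, fun g hg v => hS_eqv hb hG hG' hf hP hQ (hc g hg) (hzg g hg) c₀ v⟩ s.uT
    (fun h => by
      have h2 := (hK (heven h)).2
      rw [Module.finrank_eq_card_basis s.uT] at h2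
      refine lt_of_le_of_lt (Fintype.card_subtype_le _) ?_
      rwa [Fintype.card_fin])

include hb hmid hz in
/-- **The contribution of a pattern is algebraic.** -/
theorem term_alg (hza : z ∈ algClasses W (P.X.prod Q.X) P.X.dim)
    (hG : IsGalois W χ P.X ρ) (hG' : IsGalois W χ Q.X ρ')
    (hf : Intertwines (W.map f) ρ' ρ) (hP : IsPowAct W P n Z ρ τ υ)
    (hQ : IsPowAct W Q n Z ρ' τ υ') (hυ' : ∀ g i, ∀ a ∈ W.gr _ i, υ' g a ∈ W.gr _ i)
    (hirr : IrredAct ρ (relPrimitive W f)) {g : Γ}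
    (hPL : PLAct (W.tr P.X) (relPrimitive W f) ρ g) (hχ : χ g = 1) (hυ : υ' g = 1)
    (hK : Even P.X.dim → FewRoots W.K ∧ n + 1 < Module.finrank W.K (relPrimitive W f))
    (hT : TateConj W χ ((nest ops n fun _ => Q).X.prod Z) υ')
    {c : W.H ((nest ops n fun _ => P).X.prod Z)} {j : ℕ} {Δ : Subgroup Γ} (hΔ : Δ.FiniteIndex)
    (hc : ∀ g ∈ Δ, υ g c = (χ g : W.K) ^ j • c)
    (hzg : ∀ g ∈ Δ, ∀ x, W.corr z (ρ g x) = ρ' g (W.corr z x))
    (c₀ : Fin (n + 1) → Option Unit) :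
    proj (W.isInternal _) (2 * j) (∑ r : Free c₀ → Fin s.NT,
      W.map (fst _ Z) (mono (prj ops n fun _ => P) fun p =>
        bx (fun i => (s.bT i : W.H P.X)) (comb c₀ r p)) *
        W.map (powMap ops f n Z) (hS f z e b c c₀ fun j => s.uT (r j))) ∈
      algSpan W ((nest ops n fun _ => P).X.prod Z) := by
  classical
  have h1 := gen_rel hb hmid hz s hG hG' hf hP hQ hirr hPL hχ hυ hK hΔ hc hzg c₀
  obtain ⟨N, m, e', a, ha, hexp⟩ := gen_expand (S := Free c₀)
    (Matrix.of fun i j => rform W P.X (relPrimitive W f) (s.uT i) (s.uT j))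
  have h2 := hexp _ _ h1
  set w : Fin N → W.H ((nest ops n fun _ => Q).X.prod Z) := fun l =>
    ∑ r, a l r • hS f z e b c c₀ (fun j => s.uT (r j)) with hw
  have h3 : ∑ r : Free c₀ → Fin s.NT,
      W.map (fst _ Z) (mono (prj ops n fun _ => P) fun p =>
        bx (fun i => (s.bT i : W.H P.X)) (comb c₀ r p)) *
        W.map (powMap ops f n Z) (hS f z e b c c₀ fun j => s.uT (r j)) =
      ∑ l, W.map (fst _ Z) (∑ r : Free c₀ → Fin s.NT,
        GQ (Matrix.of fun i j => bil W P.X (s.uT i) (s.uT j)) (e' l) r •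
          mono (prj ops n fun _ => P) fun p =>
            bx (fun i => (s.bT i : W.H P.X)) (comb c₀ r p)) *
        W.map (powMap ops f n Z) (w l) := by
    symm
    rw [Finset.sum_congr rfl fun l _ => by rw [map_sum, Finset.sum_mul], Finset.sum_comm]
    refine Finset.sum_congr rfl fun r _ => ?_
    rw [h2 r, map_sum, Finset.mul_sum]
    refine Finset.sum_congr rfl fun l _ => ?_
    rw [map_smul, map_smul, mul_smul_comm, smul_mul_assoc]
    rfl
  rw [h3, map_sum]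
  refine Submodule.sum_mem _ fun l _ => ?_
  obtain ⟨ε, hε⟩ := pair_sum (π := prj ops n fun _ => P) hmid (s := s) (e' l)
  rw [hε]
  set x : W.H (nest ops n fun _ => P).X := (ε : W.K) • (List.ofFn fun l' : Fin (m l) =>
    W.map (Obj.lift (prj ops n (fun _ => P) (e' l (l', 0)).1)
      (prj ops n (fun _ => P) (e' l (l', 1)).1)) (dG s)).prod with hx
  have hxa : x ∈ algSpan W (nest ops n fun _ => P).X := by
    rw [hx, List.ofFn_eq_map]
    exact Submodule.smul_mem _ _ (list_alg _ _ fun l' _ => algSpan_map _ (dG_alg hmid hz s hza))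
  have hxg : x ∈ W.gr (nest ops n fun _ => P).X (2 * (P.X.dim * m l)) := by
    rw [hx, List.ofFn_eq_map]
    refine Submodule.smul_mem _ _ ?_
    have h4 := list_gr (W := W) (List.finRange (m l)) (fun l' : Fin (m l) =>
      W.map (Obj.lift (prj ops n (fun _ => P) (e' l (l', 0)).1)
        (prj ops n (fun _ => P) (e' l (l', 1)).1)) (dG s)) (d := 2 * P.X.dim)
      fun l' _ => W.map_mem _ (dG_gr hmid s)
    rwa [List.length_finRange, mul_assoc] at h4
  rw [proj_mul (W.map_mem _ hxg)]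
  by_cases hjl : 2 * (P.X.dim * m l) ≤ 2 * j
  · rw [if_pos hjl, proj_map]
    refine algSpan_mul (algSpan_map _ hxa) (algSpan_map _ ?_)
    have h5 : 2 * j - 2 * (P.X.dim * m l) = 2 * (j - P.X.dim * m l) := by omega
    rw [h5]
    refine Submodule.span_mono (Set.subset_iUnion _ _)
      (hT (j - P.X.dim * m l) _ (proj_mem _ _ _) ⟨Δ, hΔ, fun g hg => ?_⟩)
    have hχ0 : (χ g : W.K) ≠ 0 := Units.ne_zero _
    rw [proj_act (hυ' g), ← map_smul]
    congr 1
    have h6 := coef_act s.uT (h := hS f z e b c c₀) ha h2 (ρ := rhoR hG hf g)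
      (σ := twist (lam χ P c₀ j) υ' g) (μ := (χ g : W.K) ^ P.X.dim)
      (fun x y => bil_act hG g x y)
      (hS_eqv hb hG hG' hf hP hQ (hc g hg) (hzg g hg) c₀) l
    change twist (lam χ P c₀ j) υ' g (w l) = _ • w l at h6
    rw [twist_apply, lam_apply, card_free (e' l)] at h6
    have h7 : υ' g (w l) = ((χ g : W.K) ^ (j - P.X.dim * m l)) • w l := by
      have h8 : (χ g : W.K) ^ j = (χ g : W.K) ^ (j - P.X.dim * m l) *
          ((χ g : W.K) ^ P.X.dim) ^ m l := by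
        rw [← pow_mul, ← pow_add]
        congr 1
        omega
      have h9 : (((χ g ^ j)⁻¹ * (χ g ^ P.X.dim) ^ (2 * m l) : W.Kˣ) : W.K) =
          ((χ g : W.K) ^ (j - P.X.dim * m l))⁻¹ * ((χ g : W.K) ^ P.X.dim) ^ m l := by
        push_cast
        rw [h8, two_mul, pow_add]
        field_simp
      rw [h9, mul_comm, mul_smul] at h6
      have h10 := smul_right_injective _ (pow_ne_zero (m l) (pow_ne_zero P.X.dim hχ0)) h6
      conv_rhs => rw [← h10, smul_smul, mul_inv_cancel₀ (pow_ne_zero _ hχ0), one_smul]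
    exact h7
  · rw [if_neg hjl]
    exact Submodule.zero_mem _

/-- **The Tate conjecture for powers of varieties over a base.** -/
theorem tate_over (hsplit : SplitOver W f)
    (hG : IsGalois W χ P.X ρ) (hG' : IsGalois W χ Q.X ρ')
    {ω : Γ →* (W.H (P.X.prod Q.X) ≃ₐ[W.K] W.H (P.X.prod Q.X))}
    (hω : IsGalois W χ (P.X.prod Q.X) ω) (hω1 : Intertwines (W.map (fst P.X Q.X)) ρ ω)
    (hω2 : Intertwines (W.map (snd P.X Q.X)) ρ' ω)
    (hf : Intertwines (W.map f) ρ' ρ) (hP : IsPowAct W P n Z ρ τ υ)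
    (hQ : IsPowAct W Q n Z ρ' τ υ') (hυ' : ∀ g i, ∀ a ∈ W.gr _ i, υ' g a ∈ W.gr _ i)
    (hirr : IrredAct ρ (relPrimitive W f)) {g : Γ}
    (hPL : PLAct (W.tr P.X) (relPrimitive W f) ρ g) (hχ : χ g = 1) (hυ : υ' g = 1)
    (hK : Even P.X.dim → FewRoots W.K ∧ n + 1 < Module.finrank W.K (relPrimitive W f))
    (hT : TateConj W χ ((nest ops n fun _ => Q).X.prod Z) υ') :
    TateConj W χ ((nest ops n fun _ => P).X.prod Z) υ := by
  obtain ⟨hmid, _, ⟨z, hza, rfl⟩, hz⟩ := hsplit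
  obtain ⟨s⟩ := exists_TB (rel_nondeg hmid hz)
  obtain ⟨b, hb⟩ := exists_monoBasis (ops := ops) P (Module.finBasis W.K (W.H P.X)) n
  obtain ⟨Δ', hΔ', hfix⟩ := hω.cl_fix _ z hza
  intro j c hcj ⟨Δ, hΔ, hc⟩
  refine algSpan_gr ?_ hcj
  have h1 := congrArg (proj (W.isInternal _) (2 * j)) (recon hb hmid hz s c)
  rw [proj_same _ hcj, map_sum] at h1
  rw [h1]
  refine Submodule.sum_mem _ fun c₀ _ => ?_
  exact term_alg hb hmid hz s hza hG hG' hf hP hQ hυ' hirr hPL hχ hυ hK hT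
    (Δ := Δ ⊓ Δ') inferInstance (fun g hg => hc g hg.1)
    (fun g hg x => corr_act hG' hω hω1 hω2 (hfix g hg.2) x) c₀

end

end Pool.Agent.TH125.Sec
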