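import Pool.Agent.TH125.Gal.Pub2

/-!
# Varieties whose cohomology is the cohomology of another variety and a primitive part: definitions
-/

open CategoryTheory AlgebraicGeometry

universe u v w

namespace Pool.Agent.TH125.Sec

section Alg

open Pool.Agent.TH125.Gal

variable {K : Type*} [Field K] {A : Type*} [Ring A] [Algebra K A] {B : Type*} [Ring B]
  [Algebra K B]

/-- The kernel of `p` is contained in `M`, and there is an `s` in `S` such that all `x - g (s x)`
are in the kernel of `p`. -/
structure SplitMap (g : B →ₐ[K] A) (p : A →ₗ[K] B) (M : Submodule K A) (S : Set (A →ₗ[K] B)) :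
    Prop where
  middle : LinearMap.ker p ≤ M
  retract : ∃ s ∈ S, ∀ x, x - g (s x) ∈ LinearMap.ker p

/-- If `d` is even, the field `K` contains only finitely many `ζ + ζ⁻¹`, `ζ` a root of unity, and
`n + 1` is less than the dimension of `T`. -/
def SmallRank (d : ℕ) (T : Submodule K A) (n : ℕ) : Prop :=
  Even d → FewRoots K ∧ n + 1 < Module.finrank K T

end Alg

open Pool.Agent.H914 Pool.Agent.H914.VarClass Pool.Agent.H914.VarClass.Obj
  Pool.Agent.H914.WeilCohomology Pool.Agent.TH125.Gal

variable {k : Type u} [Field k] {𝒱 : VarClass k} {ops : CycleOps 𝒱}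

/-- The primitive cohomology of `X` relative to the morphism `f : X ⟶ Y`: the kernel of the
push-forward (Gysin map), which is the orthogonal complement of the pull-back of the cohomology of
`Y`. -/
noncomputable def relPrimitive (W : WeilCohomology.{u, v} ops) {X Y : 𝒱.Obj} (f : X ⟶ Y) :
    Submodule W.K (W.H X) := LinearMap.ker (W.push f)

/-- The maps from the cohomology of `X` to the cohomology of `Y` which preserve the degree and are
given by algebraic cycles on `X × Y`. -/
def algCorr (W : WeilCohomology.{u, v} ops) (X Y : 𝒱.Obj) : Set (W.H X →ₗ[W.K] W.H Y) :=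
  W.corr '' algClasses W (X.prod Y) X.dim

/-- The primitive cohomology of `X` relative to `f : X ⟶ Y` is in the middle degree, and a cycle
on `X × Y` defines a map `s` from the cohomology of `X` to the cohomology of `Y` such that
`x - f^* (s x)` is primitive for all `x` (so `f^* s` is the projection to the pull-back of the
cohomology of `Y`). -/
def SplitOver (W : WeilCohomology.{u, v} ops) {X Y : 𝒱.Obj} (f : X ⟶ Y) : Prop :=
  SplitMap (W.map f) (W.push f) (W.gr X X.dim) (algCorr W X Y)

variable {W : WeilCohomology.{u, v} ops} {Γ : Type w} [Group Γ]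

/-- `X`, `Y` and `Z` are members of the class `G` and `f : X ⟶ Y` is an equivariant morphism; the
cohomology of `X` is the sum of the pull-back of the cohomology of `Y` and of the primitive part,
with an algebraic projector; the primitive part is irreducible under all subgroups of finite index;
there is an element of `Γ` which acts on the primitive part by a Picard-Lefschetz formula and
trivially on the cohomology of `Y` and of `Z` and by `χ`. -/
structure NodalOver (χ : Γ →* W.Kˣ) (G : Set (GVar W Γ)) {X Y : GVar W Γ} (f : X.X ⟶ Y.X)
    (Z : GVar W Γ) : Prop where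
  galoisClass : GaloisClass χ G
  mem_left : X ∈ G
  mem_right : Y ∈ G
  mem_base : Z ∈ G
  equivariant : Equivariant f
  split : SplitOver W f
  irreducible : IrredAct X.act (relPrimitive W f)
  node : ∃ g : Γ, PLAct (W.tr X.X) (relPrimitive W f) X.act g ∧ χ g = 1 ∧ TrivVar Y g ∧
    TrivVar Z g

/-- If the dimension of `X` is even, the field `K` contains only finitely many `ζ + ζ⁻¹`, `ζ` a root
of unity, and `n + 1` is less than the dimension of the primitive cohomology. -/
def SmallPower (W : WeilCohomology.{u, v} ops) {X Y : 𝒱.Obj} (f : X ⟶ Y) (n : ℕ) : Prop :=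
  SmallRank X.dim (relPrimitive W f) n

end Pool.Agent.TH125.Sec
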