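import Pool.Agent.TH125.Sec.Fin
import Pool.Agent.TH125.Sec.Def
import Pool.Agent.TH125.Gal.Std

/-!
# The Tate conjecture for powers of varieties over a base: the public form
-/

open CategoryTheory AlgebraicGeometry Finset

set_option linter.unusedSectionVars false

universe u v w

namespace Pool.Agent.TH125.Sec

open Pool.Agent.H914 Pool.Agent.H914.VarClass Pool.Agent.H914.VarClass.Obj
  Pool.Agent.H914.WeilCohomology Pool.Agent.H281R3.HT Pool.Agent.W552 Pool.Agent.TH125.Gal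

variable {k : Type u} [Field k] {𝒱 : VarClass k} {ops : CycleOps 𝒱}
  {W : WeilCohomology.{u, v} ops} {Γ : Type w} [Group Γ] {χ : Γ →* W.Kˣ}

/-- the action on a product with a power is determined by the actions on the factors -/
theorem powAct_unique {P : Polarized 𝒱} {n : ℕ} {Z : 𝒱.Obj}
    {ρ : Γ →* (W.H P.X ≃ₐ[W.K] W.H P.X)} {τ : Γ →* (W.H Z ≃ₐ[W.K] W.H Z)}
    {υ υ' : Γ →* (W.H ((nest ops n fun _ => P).X.prod Z) ≃ₐ[W.K]
      W.H ((nest ops n fun _ => P).X.prod Z))}
    (h : IsPowAct W P n Z ρ τ υ) (h' : IsPowAct W P n Z ρ τ υ') : υ = υ' := by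
  obtain ⟨b, hb⟩ := exists_monoBasis (ops := ops) P (Module.finBasis W.K (W.H P.X)) n
  apply MonoidHom.ext
  intro g
  apply AlgEquiv.ext
  intro c
  refine pow_ext hb (L := fun c => υ g c) (L' := fun c => υ' g c) (fun a b => map_add _ a b)
    (fun a b => map_add _ a b) (fun a w => ?_) c
  rw [act_mono (h g).1 (h g).2, act_mono (h' g).1 (h' g).2]

/-- **The Tate conjecture for powers of varieties over a base.** -/
theorem tate_power {G : Set (GVar W Γ)} {X Y Z : GVar W Γ} {f : X.X ⟶ Y.X}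
    (h : NodalOver χ G f Z) {n : ℕ} (hn : SmallPower W f n) {A B : GVar W Γ}
    (hA : IsPowProd Y n Z A) (hB : IsPowProd X n Z B) (hT : TateConjecture χ A) :
    TateConjecture χ B := by
  obtain ⟨υ', hA1, hA2⟩ := hA
  obtain ⟨υ, hB1, hB2⟩ := hB
  have hQ := isPowAct hA1 hA2
  have hP := isPowAct hB1 hB2
  obtain ⟨ω, hω1, hω2, hω⟩ := h.galoisClass.prod' h.mem_left h.mem_right
  obtain ⟨υ₁, hυ₁, hQ'⟩ := exists_pow_act h.galoisClass h.mem_right h.mem_base 0 n
  obtain rfl := powAct_unique hQ hQ'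
  obtain ⟨g, hPL, hχ, hgY, hgZ⟩ := h.node
  exact tate_over (P := ⟨X.X, 0⟩) (Q := ⟨Y.X, 0⟩) h.split
    (isGalois (h.galoisClass.galois _ h.mem_left))
    (isGalois (h.galoisClass.galois _ h.mem_right)) (isGalois (h.galoisClass.galois _ hω)) hω1 hω2
    h.equivariant hP hQ (h.galoisClass.galois _ hυ₁).gr_mem h.irreducible hPL hχ
    (act_one hQ (trivAct.1 hgY) (trivAct.1 hgZ)) hn hT

end Pool.Agent.TH125.Sec
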