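import Pool.Agent.TH125.Nod.Fft2

/-!
# Expansions in independent products of a bilinear form over pairs
-/

open Finset Function

set_option linter.unusedSectionVars false

universe u v w

namespace Pool.Agent.TH125.Sec

open Pool.Agent.TH125.Nod

section form

variable {K : Type u} [Field K] {T : Type v} [AddCommGroup T] [Module K T] {S : Type}

theorem prod_update (B : T →ₗ[K] T →ₗ[K] K) {m : ℕ} (e : Fin m × Fin 2 ≃ S) [DecidableEq S]
    (v : S → T) (l : Fin m) (j : Fin 2) (x : T) :
    ∏ l', B (update v (e (l, j)) x (e (l', 0))) (update v (e (l, j)) x (e (l', 1))) =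
      B (update v (e (l, j)) x (e (l, 0))) (update v (e (l, j)) x (e (l, 1))) *
        ∏ l' ∈ univ.erase l, B (v (e (l', 0))) (v (e (l', 1))) := by
  rw [← Finset.mul_prod_erase _ _ (Finset.mem_univ l)]
  congr 1
  refine Finset.prod_congr rfl fun l' hl => ?_
  have h1 : ∀ j', e (l', j') ≠ e (l, j) := by
    intro j' h
    exact (Finset.ne_of_mem_erase hl) (Prod.mk.inj (e.injective h)).1
  rw [update_of_ne (h1 0), update_of_ne (h1 1)]

/-- The product of the values of a bilinear form on pairs of entries. -/
def prodForm (B : T →ₗ[K] T →ₗ[K] K) {m : ℕ} (e : Fin m × Fin 2 ≃ S) :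
    MultilinearMap K (fun _ : S => T) K where
  toFun v := ∏ l, B (v (e (l, 0))) (v (e (l, 1)))
  map_update_add' := by
    intro _ v i x y
    obtain ⟨⟨l, j⟩, rfl⟩ := e.surjective i
    rw [prod_update, prod_update, prod_update, ← add_mul]
    congr 1
    have h01 : e (l, 1) ≠ e (l, 0) := fun h =>
      absurd (Prod.mk.inj (e.injective h)).2 (by decide)
    fin_cases j
    · change B (update v (e (l, 0)) (x + y) (e (l, 0))) (update v (e (l, 0)) (x + y) (e (l, 1))) =
        B (update v (e (l, 0)) x (e (l, 0))) (update v (e (l, 0)) x (e (l, 1))) +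
          B (update v (e (l, 0)) y (e (l, 0))) (update v (e (l, 0)) y (e (l, 1)))
      rw [update_self, update_self, update_self, update_of_ne h01, update_of_ne h01,
        update_of_ne h01, map_add, LinearMap.add_apply]
    · change B (update v (e (l, 1)) (x + y) (e (l, 0))) (update v (e (l, 1)) (x + y) (e (l, 1))) =
        B (update v (e (l, 1)) x (e (l, 0))) (update v (e (l, 1)) x (e (l, 1))) +
          B (update v (e (l, 1)) y (e (l, 0))) (update v (e (l, 1)) y (e (l, 1)))
      rw [update_self, update_self, update_self, update_of_ne h01.symm, update_of_ne h01.symm,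
        update_of_ne h01.symm, map_add]
  map_update_smul' := by
    intro _ v i c x
    obtain ⟨⟨l, j⟩, rfl⟩ := e.surjective i
    rw [prod_update, prod_update, smul_eq_mul, ← mul_assoc]
    congr 1
    have h01 : e (l, 1) ≠ e (l, 0) := fun h =>
      absurd (Prod.mk.inj (e.injective h)).2 (by decide)
    fin_cases j
    · change B (update v (e (l, 0)) (c • x) (e (l, 0))) (update v (e (l, 0)) (c • x) (e (l, 1))) =
        c * B (update v (e (l, 0)) x (e (l, 0))) (update v (e (l, 0)) x (e (l, 1)))
      rw [update_self, update_self, update_of_ne h01, update_of_ne h01, map_smul,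
        LinearMap.smul_apply, smul_eq_mul]
    · change B (update v (e (l, 1)) (c • x) (e (l, 0))) (update v (e (l, 1)) (c • x) (e (l, 1))) =
        c * B (update v (e (l, 1)) x (e (l, 0))) (update v (e (l, 1)) x (e (l, 1)))
      rw [update_self, update_self, update_of_ne h01.symm, update_of_ne h01.symm, map_smul,
        smul_eq_mul]

theorem prodForm_apply (B : T →ₗ[K] T →ₗ[K] K) {m : ℕ} (e : Fin m × Fin 2 ≃ S) (v : S → T) :
    prodForm B e v = ∏ l, B (v (e (l, 0))) (v (e (l, 1))) := rfl

theorem prodForm_scale {B : T →ₗ[K] T →ₗ[K] K} {m : ℕ} (e : Fin m × Fin 2 ≃ S) {ρ : T → T} {μ : K}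
    (h : ∀ x y, B (ρ x) (ρ y) = μ * B x y) (v : S → T) :
    prodForm B e (fun j => ρ (v j)) = μ ^ m * prodForm B e v := by
  rw [prodForm_apply, prodForm_apply]
  simp only [h]
  rw [Finset.prod_mul_distrib, Finset.prod_const, Finset.card_univ, Fintype.card_fin]

end form

section expand

variable {K : Type u} [Field K] {J S : Type} [Fintype J] [DecidableEq J] [Fintype S]
  [DecidableEq S]

/-- the products of matrix entries -/
def GQ (Q : Matrix J J K) {m : ℕ} (e : Fin m × Fin 2 ≃ S) (r : S → J) : K :=
  ∏ l, Q (r (e (l, 0))) (r (e (l, 1)))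

/-- **Independent products.** -/
theorem gen_expand (Q : Matrix J J K) :
    ∃ (N : ℕ) (m : Fin N → ℕ) (e : ∀ l, Fin (m l) × Fin 2 ≃ S) (a : Fin N → (S → J) → K),
      (∀ l l', ∑ r, a l r * GQ Q (e l') r = if l' = l then 1 else 0) ∧
      ∀ (M : Type w) [AddCommGroup M] [Module K M] (F : (S → J) → M),
        F ∈ Gen (fun _ : J => ()) Q (fun _ : S => ()) →
        ∀ r, F r = ∑ l, GQ Q (e l) r • ∑ r', a l r' • F r' := by
  classical
  obtain ⟨A, hA, hspan, hli⟩ := exists_linearIndependent K
    {g : (S → J) → K | ∃ (m : ℕ) (e : Fin m × Fin 2 ≃ S), g = GQ Q e}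
  have hfin : A.Finite := hli.setFinite
  have := hfin.fintype
  let eA := Fintype.equivFin A
  have h0 : ∀ l : Fin (Fintype.card A), ∃ (m : ℕ) (e : Fin m × Fin 2 ≃ S),
      ((eA.symm l : A) : (S → J) → K) = GQ Q e := fun l => hA (eA.symm l).2
  choose m e he using h0
  let Bs := Module.Basis.extend hli
  let φ : Fin (Fintype.card A) → ((S → J) → K) →ₗ[K] K := fun l =>
    Bs.coord ⟨(eA.symm l : A), Module.Basis.subset_extend hli (eA.symm l).2⟩
  have hφ : ∀ l l', φ l (GQ Q (e l')) = if l' = l then 1 else 0 := by
    intro l l'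
    have h1 : GQ Q (e l') =
        Bs ⟨(eA.symm l' : A), Module.Basis.subset_extend hli (eA.symm l').2⟩ := by
      rw [← he]
      exact (Module.Basis.extend_apply_self hli ⟨((eA.symm l' : A) : (S → J) → K),
        Module.Basis.subset_extend hli (eA.symm l').2⟩).symm
    change Bs.coord _ _ = _
    rw [h1, Module.Basis.coord_apply, Module.Basis.repr_self, Finsupp.single_apply]
    congr 1
    apply propext
    rw [Subtype.mk.injEq, Subtype.ext_iff.symm, EmbeddingLike.apply_eq_iff_eq]
  have hφ' : ∀ l (g : (S → J) → K), φ l g = ∑ r, φ l (Pi.single r 1) * g r := by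
    intro l g
    conv_lhs => rw [← Finset.univ_sum_single g]
    rw [map_sum]
    refine Finset.sum_congr rfl fun r _ => ?_
    have h1 : (Pi.single r (g r) : (S → J) → K) = g r • Pi.single r 1 := by
      rw [← Pi.single_smul, smul_eq_mul, mul_one]
    rw [h1, map_smul, smul_eq_mul, mul_comm]
  refine ⟨Fintype.card A, m, e, fun l r => φ l (Pi.single r 1), fun l l' => ?_, ?_⟩
  · rw [← hφ', hφ]
  · intro M _ _ F hF
    induction hF using Submodule.span_induction with
    | mem F hF =>
      obtain ⟨m', e', w, rfl⟩ := hF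
      have h1 : GQ Q e' ∈ Submodule.span K (Set.range fun l : Fin (Fintype.card A) =>
          GQ Q (e l)) := by
        have h2 : (Set.range fun l : Fin (Fintype.card A) => GQ Q (e l)) = A := by
          ext x
          constructor
          · rintro ⟨l, rfl⟩
            beta_reduce
            rw [← he]
            exact (eA.symm l).2
          · intro hx
            refine ⟨eA ⟨x, hx⟩, ?_⟩
            beta_reduce
            rw [← he]
            simp
        rw [h2, hspan]
        exact Submodule.subset_span ⟨m', e', rfl⟩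
      obtain ⟨a, ha⟩ := (Submodule.mem_span_range_iff_exists_fun K).1 h1
      have h3 : ∀ l, φ l (GQ Q e') = a l := by
        intro l
        rw [← ha, map_sum, Finset.sum_eq_single l]
        · rw [map_smul, hφ, if_pos rfl, smul_eq_mul, mul_one]
        · intro l' _ hl
          rw [map_smul, hφ, if_neg hl, smul_zero]
        · intro h
          exact absurd (Finset.mem_univ _) h
      have h4 : ∀ r, gen (fun _ : J => ()) Q (fun _ : S => ()) e' w r = GQ Q e' r • w := by
        intro r
        rw [gen, if_pos fun _ => rfl]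
        rfl
      intro r
      simp only [h4]
      have h5 : ∀ l, ∑ r', φ l (Pi.single r' 1) • GQ Q e' r' • w = a l • w := by
        intro l
        rw [← h3, hφ', Finset.sum_smul]
        exact Finset.sum_congr rfl fun r' _ => smul_smul _ _ _
      simp only [h5]
      conv_lhs => rw [← ha]
      rw [Finset.sum_apply, Finset.sum_smul]
      refine Finset.sum_congr rfl fun l _ => ?_
      rw [Pi.smul_apply, smul_eq_mul, smul_smul, mul_comm]
    | zero => simp
    | add F F' _ _ hF hF' =>
      intro r
      rw [Pi.add_apply, hF r, hF' r, ← Finset.sum_add_distrib]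
      refine Finset.sum_congr rfl fun l _ => ?_
      rw [← smul_add, ← Finset.sum_add_distrib]
      congr 1
      refine Finset.sum_congr rfl fun r' _ => ?_
      rw [Pi.add_apply, smul_add]
    | smul x F _ hF =>
      intro r
      rw [Pi.smul_apply, hF r, Finset.smul_sum]
      refine Finset.sum_congr rfl fun l _ => ?_
      rw [smul_comm]
      congr 1
      rw [Finset.smul_sum]
      refine Finset.sum_congr rfl fun r' _ => ?_
      rw [Pi.smul_apply, smul_comm]

end expand

section semi

variable {K : Type u} [Field K] {T : Type v} [AddCommGroup T] [Module K T] {J S : Type}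
  [Fintype J] [DecidableEq J] [Fintype S] [DecidableEq S] {E : Type w} [AddCommGroup E]
  [Module K E]

/-- **The coefficients are semi-invariant.** -/
theorem coef_act {B : T →ₗ[K] T →ₗ[K] K} (t : Module.Basis J K T)
    {h : MultilinearMap K (fun _ : S => T) E} {N : ℕ} {m : Fin N → ℕ}
    {e : ∀ l, Fin (m l) × Fin 2 ≃ S} {a : Fin N → (S → J) → K}
    (ha : ∀ l l', ∑ r, a l r * GQ (Matrix.of fun i j => B (t i) (t j)) (e l') r =
      if l' = l then 1 else 0)
    (hh : ∀ r : S → J, h (fun j => t (r j)) = ∑ l, GQ (Matrix.of fun i j => B (t i) (t j)) (e l) r •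
      ∑ r', a l r' • h (fun j => t (r' j)))
    {ρ : T →ₗ[K] T} {σ : E →ₗ[K] E} {μ : K} (hB : ∀ x y, B (ρ x) (ρ y) = μ * B x y)
    (hρ : ∀ v, h (fun j => ρ (v j)) = σ (h v)) (l : Fin N) :
    σ (∑ r, a l r • h (fun j => t (r j))) = μ ^ m l • ∑ r, a l r • h (fun j => t (r j)) := by
  set w : Fin N → E := fun l => ∑ r, a l r • h (fun j => t (r j)) with hw
  have h1 : h = ∑ l, (prodForm B (e l)).smulRight (w l) := by
    refine Module.Basis.ext_multilinear (fun _ => t) fun r => ?_
    rw [hh r, _root_.sum_apply]
    rfl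
  have h2 : ∀ v, h v = ∑ l, prodForm B (e l) v • w l := by
    intro v
    conv_lhs => rw [h1]
    rw [_root_.sum_apply]
    rfl
  change σ (∑ r, a l r • h (fun j => t (r j))) = μ ^ m l • w l
  rw [map_sum]
  have h3 : ∀ r : S → J, σ (a l r • h (fun j => t (r j))) =
      ∑ l', (a l r * GQ (Matrix.of fun i j => B (t i) (t j)) (e l') r) • μ ^ m l' • w l' := by
    intro r
    rw [map_smul, ← hρ, h2, Finset.smul_sum]
    refine Finset.sum_congr rfl fun l' _ => ?_
    rw [prodForm_scale (e l') hB (fun j => t (r j)), smul_smul, smul_smul]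
    congr 1
    rw [prodForm_apply, GQ]
    simp only [Matrix.of_apply]
    ring
  rw [Finset.sum_congr rfl fun r _ => h3 r, Finset.sum_comm]
  have h4 : ∀ l', ∑ r, (a l r * GQ (Matrix.of fun i j => B (t i) (t j)) (e l') r) •
      μ ^ m l' • w l' = (if l' = l then (1 : K) else 0) • μ ^ m l' • w l' := by
    intro l'
    rw [← Finset.sum_smul, ha]
  rw [Finset.sum_congr rfl fun l' _ => h4 l', Finset.sum_eq_single l]
  · rw [if_pos rfl, one_smul]
  · intro l' _ hl
    rw [if_neg hl, zero_smul]
  · intro h
    exact absurd (Finset.mem_univ _) h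

end semi

end Pool.Agent.TH125.Sec
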