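import Pool.Agent.TH125.Gal.Hml

/-!
# Linear maps on the factors of a power
-/

open CategoryTheory AlgebraicGeometry Finset

set_option linter.unusedSectionVars false

universe u v w

namespace Pool.Agent.TH125.Sec

open Pool.Agent.H914 Pool.Agent.H914.VarClass Pool.Agent.H914.VarClass.Obj
  Pool.Agent.H914.WeilCohomology Pool.Agent.H281R3.HT Pool.Agent.W552 Pool.Agent.TH125.Gal

variable {k : Type u} [Field k] {𝒱 : VarClass k} {ops : CycleOps 𝒱}
  {W : WeilCohomology.{u, v} ops}

section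

variable {P Q : Polarized 𝒱} {J : Type} [Fintype J] {e : Module.Basis J W.K (W.H P.X)} {n : ℕ}
  {b : Module.Basis (Fin (n + 1) → J) W.K (W.H (nest ops n fun _ => P).X)}
  (hb : ∀ r, b r = mono (prj ops n fun _ => P) fun p => e (r p)) {Z : 𝒱.Obj}

/-- external multiplication with a class on the second factor -/
noncomputable def exR {A : 𝒱.Obj} (z : W.H Z) : W.H A →ₗ[W.K] W.H (A.prod Z) :=
  (LinearMap.mulRight W.K (W.map (snd A Z) z)) ∘ₗ (W.map (fst A Z)).toLinearMap

theorem exR_apply {A : 𝒱.Obj} (z : W.H Z) (a : W.H A) :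
    exR z a = W.map (fst A Z) a * W.map (snd A Z) z := rfl

/-- The class on a power of `Q` (times `Z`) given by a class on the power of `P` (times `Z`) and
linear maps on the cohomology of the factors. -/
noncomputable def MJ (Q : Polarized 𝒱) (e : Module.Basis J W.K (W.H P.X))
    (b : Module.Basis (Fin (n + 1) → J) W.K (W.H (nest ops n fun _ => P).X))
    (c : W.H ((nest ops n fun _ => P).X.prod Z)) :
    MultilinearMap W.K (fun _ : Fin (n + 1) => W.H P.X →ₗ[W.K] W.H Q.X)
      (W.H ((nest ops n fun _ => Q).X.prod Z)) :=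
  ∑ r, (exR (ctr (b.coord r) c)).compMultilinearMap
    ((monoML (prj ops n fun _ => Q)).compLinearMap fun p => LinearMap.applyₗ (e (r p)))

theorem MJ_apply (c : W.H ((nest ops n fun _ => P).X.prod Z))
    (φ : Fin (n + 1) → W.H P.X →ₗ[W.K] W.H Q.X) :
    MJ Q e b c φ = ∑ r, W.map (fst _ Z) (mono (prj ops n fun _ => Q) fun p => φ p (e (r p))) *
      W.map (snd _ Z) (ctr (b.coord r) c) := by
  rw [MJ, _root_.sum_apply]
  rfl

theorem MJ_add (c c' : W.H ((nest ops n fun _ => P).X.prod Z))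
    (φ : Fin (n + 1) → W.H P.X →ₗ[W.K] W.H Q.X) :
    MJ Q e b (c + c') φ = MJ Q e b c φ + MJ Q e b c' φ := by
  rw [MJ_apply, MJ_apply, MJ_apply, ← Finset.sum_add_distrib]
  refine Finset.sum_congr rfl fun r _ => ?_
  rw [map_add, map_add, mul_add]

theorem MJ_smul (x : W.K) (c : W.H ((nest ops n fun _ => P).X.prod Z))
    (φ : Fin (n + 1) → W.H P.X →ₗ[W.K] W.H Q.X) :
    MJ Q e b (x • c) φ = x • MJ Q e b c φ := by
  rw [MJ_apply, MJ_apply, Finset.smul_sum]
  refine Finset.sum_congr rfl fun r _ => ?_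
  rw [map_smul, map_smul, mul_smul_comm]

include hb in
/-- the value on external products -/
theorem MJ_mono (a : Fin (n + 1) → W.H P.X) (z : W.H Z)
    (φ : Fin (n + 1) → W.H P.X →ₗ[W.K] W.H Q.X) :
    MJ Q e b (W.map (fst _ Z) (mono (prj ops n fun _ => P) a) * W.map (snd _ Z) z) φ =
      W.map (fst _ Z) (mono (prj ops n fun _ => Q) fun p => φ p (a p)) * W.map (snd _ Z) z := by
  -- both sides are multilinear in `a`
  have h1 : ∀ x : W.H (nest ops n fun _ => P).X,
      MJ Q e b (W.map (fst _ Z) x * W.map (snd _ Z) z) φ =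
        W.map (fst _ Z) (b.constr W.K (fun r => mono (prj ops n fun _ => Q)
          fun p => φ p (e (r p))) x) * W.map (snd _ Z) z := by
    intro x
    rw [MJ_apply, Module.Basis.constr_apply_fintype, map_sum, Finset.sum_mul]
    refine Finset.sum_congr rfl fun r _ => ?_
    rw [ctr_apply, map_smul, map_smul, mul_smul_comm, smul_mul_assoc]
    rfl
  rw [h1]
  congr 2
  have h2 : (b.constr W.K (fun r => mono (prj ops n fun _ => Q)
      fun p => φ p (e (r p)))).compMultilinearMap (monoML (prj ops n fun _ => P)) =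
      (monoML (prj ops n fun _ => Q)).compLinearMap φ := by
    refine Module.Basis.ext_multilinear (fun _ => e) fun r => ?_
    change b.constr W.K _ (mono (prj ops n fun _ => P) fun p => e (r p)) =
      mono (prj ops n fun _ => Q) fun p => φ p (e (r p))
    rw [← hb, Module.Basis.constr_basis]
  exact DFunLike.congr_fun h2 a

/-- the action on external products of monomials -/
theorem act_mono {P : Polarized 𝒱} {ρ : W.H P.X ≃ₐ[W.K] W.H P.X} {τ : W.H Z ≃ₐ[W.K] W.H Z}
    {υ : W.H ((nest ops n fun _ => P).X.prod Z) ≃ₐ[W.K] W.H ((nest ops n fun _ => P).X.prod Z)}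
    (h1 : ∀ p a, υ (W.map (fst _ Z) (W.map (prj ops n (fun _ => P) p) a)) =
      W.map (fst _ Z) (W.map (prj ops n (fun _ => P) p) (ρ a)))
    (h2 : ∀ z, υ (W.map (snd _ Z) z) = W.map (snd _ Z) (τ z)) (a : Fin (n + 1) → W.H P.X)
    (z : W.H Z) : υ (W.map (fst _ Z) (mono (prj ops n fun _ => P) a) * W.map (snd _ Z) z) =
      W.map (fst _ Z) (mono (prj ops n fun _ => P) fun p => ρ (a p)) *
        W.map (snd _ Z) (τ z) := by
  have h3 : ∀ a : Fin (n + 1) → W.H P.X, υ (W.map (fst _ Z)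
      (mono (prj ops n fun _ => P) a)) = W.map (fst _ Z)
        (mono (prj ops n fun _ => P) fun p => ρ (a p)) := by
    intro a
    rw [mono, mono, map_list_prod, map_list_prod, map_list_prod, List.map_ofFn, List.map_ofFn,
      List.map_ofFn]
    congr 2
    funext p
    exact h1 p (a p)
  rw [map_mul, h3, h2]

include hb in
/-- linear maps on products with powers are determined by the external products of monomials -/
theorem pow_ext {M : Type*} [AddCommGroup M] [Module W.K M]
    {L L' : W.H ((nest ops n fun _ => P).X.prod Z) → M}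
    (hL : ∀ a b, L (a + b) = L a + L b) (hL' : ∀ a b, L' (a + b) = L' a + L' b)
    (h : ∀ a z, L (W.map (fst _ Z) (mono (prj ops n fun _ => P) a) * W.map (snd _ Z) z) =
      L' (W.map (fst _ Z) (mono (prj ops n fun _ => P) a) * W.map (snd _ Z) z))
    (c : W.H ((nest ops n fun _ => P).X.prod Z)) : L c = L' c := by
  have h0 : ∀ {L : W.H ((nest ops n fun _ => P).X.prod Z) → M},
      (∀ a b, L (a + b) = L a + L b) → ∀ {R : Type} (s : Finset R)
      (x : R → W.H ((nest ops n fun _ => P).X.prod Z)), L (∑ r ∈ s, x r) = ∑ r ∈ s, L (x r) := by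
    intro L hL R s x
    exact map_sum (AddMonoidHom.mk' L hL) x s
  rw [expand b c, h0 hL, h0 hL']
  refine Finset.sum_congr rfl fun r _ => ?_
  rw [hb]
  exact h _ _

include hb in
/-- **equivariance** -/
theorem MJ_equiv {ρ : W.H P.X ≃ₐ[W.K] W.H P.X} {ρ' : W.H Q.X ≃ₐ[W.K] W.H Q.X}
    {τ : W.H Z ≃ₐ[W.K] W.H Z}
    {υ : W.H ((nest ops n fun _ => P).X.prod Z) ≃ₐ[W.K] W.H ((nest ops n fun _ => P).X.prod Z)}
    {υ' : W.H ((nest ops n fun _ => Q).X.prod Z) ≃ₐ[W.K] W.H ((nest ops n fun _ => Q).X.prod Z)}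
    (h1 : ∀ p a, υ (W.map (fst _ Z) (W.map (prj ops n (fun _ => P) p) a)) =
      W.map (fst _ Z) (W.map (prj ops n (fun _ => P) p) (ρ a)))
    (h2 : ∀ z, υ (W.map (snd _ Z) z) = W.map (snd _ Z) (τ z))
    (h1' : ∀ p a, υ' (W.map (fst _ Z) (W.map (prj ops n (fun _ => Q) p) a)) =
      W.map (fst _ Z) (W.map (prj ops n (fun _ => Q) p) (ρ' a)))
    (h2' : ∀ z, υ' (W.map (snd _ Z) z) = W.map (snd _ Z) (τ z))
    {φ φ' : Fin (n + 1) → W.H P.X →ₗ[W.K] W.H Q.X} (hφ : ∀ p a, φ' p (ρ a) = ρ' (φ p a))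
    (c : W.H ((nest ops n fun _ => P).X.prod Z)) :
    MJ Q e b (υ c) φ' = υ' (MJ Q e b c φ) := by
  refine pow_ext hb (L := fun c => MJ Q e b (υ c) φ') (L' := fun c => υ' (MJ Q e b c φ)) ?_ ?_
    ?_ c
  · intro a c
    rw [map_add, MJ_add]
  · intro a c
    rw [MJ_add, map_add]
  · intro a z
    beta_reduce
    rw [act_mono h1 h2, MJ_mono hb, MJ_mono hb, act_mono h1' h2']
    simp only [hφ]

end

/-- the map of powers given by a morphism -/
noncomputable def nestMap (ops : CycleOps 𝒱) {P Q : Polarized 𝒱} (f : P.X ⟶ Q.X) :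
    (n : ℕ) → ((nest ops n fun _ => P).X ⟶ (nest ops n fun _ => Q).X)
  | 0 => f
  | n + 1 => Obj.lift (fst P.X (nest ops n fun _ => P).X ≫ f)
      (snd P.X (nest ops n fun _ => P).X ≫ nestMap ops f n)

theorem nestMap_prj {P Q : Polarized 𝒱} (f : P.X ⟶ Q.X) (n : ℕ) (p : Fin (n + 1)) :
    nestMap ops f n ≫ prj ops n (fun _ => Q) p = prj ops n (fun _ => P) p ≫ f := by
  induction n with
  | zero =>
    obtain rfl : p = 0 := Fin.eq_zero p
    change f ≫ 𝟙 Q.X = 𝟙 P.X ≫ f
    rw [Category.comp_id, Category.id_comp]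
  | succ n ih =>
    refine Fin.cases ?_ (fun i => ?_) p
    · exact Obj.lift_fst _ _
    · change nestMap ops f (n + 1) ≫ snd Q.X (nest ops n fun _ => Q).X ≫
        prj ops n (fun _ => Q) i = (snd P.X (nest ops n fun _ => P).X ≫
          prj ops n (fun _ => P) i) ≫ f
      have h1 : nestMap ops f (n + 1) ≫ snd Q.X (nest ops n fun _ => Q).X =
          snd P.X (nest ops n fun _ => P).X ≫ nestMap ops f n := Obj.lift_snd _ _
      exact ((Category.assoc _ _ _).symm.trans (congrArg (· ≫ prj ops n (fun _ => Q) i) h1)).trans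
        ((Category.assoc _ _ _).trans ((congrArg
          (snd P.X (nest ops n fun _ => P).X ≫ ·) (ih i)).trans (Category.assoc _ _ _).symm))

/-- the map of products -/
noncomputable def powMap (ops : CycleOps 𝒱) {P Q : Polarized 𝒱} (f : P.X ⟶ Q.X) (n : ℕ)
    (Z : 𝒱.Obj) : (nest ops n fun _ => P).X.prod Z ⟶ (nest ops n fun _ => Q).X.prod Z :=
  Obj.lift (fst (nest ops n fun _ => P).X Z ≫ nestMap ops f n) (snd (nest ops n fun _ => P).X Z)

theorem map_powMap {P Q : Polarized 𝒱} (f : P.X ⟶ Q.X) (n : ℕ) (Z : 𝒱.Obj)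
    (a : Fin (n + 1) → W.H Q.X) (z : W.H Z) :
    W.map (powMap ops f n Z) (W.map (fst _ Z) (mono (prj ops n fun _ => Q) a) *
      W.map (snd _ Z) z) = W.map (fst _ Z) (mono (prj ops n fun _ => P) fun p => W.map f (a p)) *
        W.map (snd _ Z) z := by
  have e1 : powMap ops f n Z ≫ fst (nest ops n fun _ => Q).X Z =
      fst (nest ops n fun _ => P).X Z ≫ nestMap ops f n := Obj.lift_fst _ _
  have e2 : powMap ops f n Z ≫ snd (nest ops n fun _ => Q).X Z =
      snd (nest ops n fun _ => P).X Z := Obj.lift_snd _ _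
  rw [map_mul, ← W.map_comp, ← W.map_comp, e1, e2, W.map_comp]
  congr 2
  rw [mono, mono, map_list_prod, List.map_ofFn]
  congr 2
  funext p
  change W.map (nestMap ops f n) (W.map (prj ops n (fun _ => Q) p) (a p)) =
    W.map (prj ops n (fun _ => P) p) (W.map f (a p))
  rw [← W.map_comp, nestMap_prj, W.map_comp]

end Pool.Agent.TH125.Sec
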