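import Pool.Agent.TH125.Sec.Rel
import Pool.Agent.TH125.Sec.Fam
import Pool.Agent.TH125.Gal.Tower

/-!
# The Tate conjecture for powers of varieties over a base
-/

open CategoryTheory AlgebraicGeometry Finset

set_option linter.unusedSectionVars false

universe u v w

namespace Pool.Agent.TH125.Sec

open Pool.Agent.H914 Pool.Agent.H914.VarClass Pool.Agent.H914.VarClass.Obj
  Pool.Agent.H914.WeilCohomology Pool.Agent.H281R3.HT Pool.Agent.W552 Pool.Agent.TH125.Gal

variable {k : Type u} [Field k] {𝒱 : VarClass k} {ops : CycleOps 𝒱}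
  {W : WeilCohomology.{u, v} ops}

/-- The number of the free positions is even. -/
theorem card_free {S : Type} [Fintype S] {m : ℕ} (e : Fin m × Fin 2 ≃ S) :
    Fintype.card S = 2 * m := by
  rw [← Fintype.card_congr e, Fintype.card_prod, Fintype.card_fin, Fintype.card_fin, mul_comm]

/-- homogeneous components of products -/
theorem proj_mul {A : 𝒱.Obj} {i l : ℕ} {a : W.H A} (ha : a ∈ W.gr A i) (x : W.H A) :
    proj (W.isInternal A) l (a * x) =
      if i ≤ l then a * proj (W.isInternal A) (l - i) x else 0 := by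
  refine gr_induction (W.isInternal A) (p := fun x => proj (W.isInternal A) l (a * x) =
    if i ≤ l then a * proj (W.isInternal A) (l - i) x else 0) ?_ ?_ x
  · intro j x hx
    have h1 : a * x ∈ W.gr A (i + j) := W.mul_mem ha hx
    by_cases hil : i ≤ l
    · rw [if_pos hil]
      by_cases hj : j = l - i
      · subst hj
        rw [proj_same _ hx]
        have h2 : i + (l - i) = l := by omega
        rw [h2] at h1
        rw [proj_same _ h1]
      · rw [proj_ne _ hx hj, mul_zero, proj_ne _ h1 (by omega)]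
    · rw [if_neg hil, proj_ne _ h1 (by omega)]
  · intro x x' hx hx'
    rw [mul_add, map_add, hx, hx']
    by_cases hil : i ≤ l
    · rw [if_pos hil, if_pos hil, if_pos hil, map_add, mul_add]
    · rw [if_neg hil, if_neg hil, if_neg hil, add_zero]

theorem proj_map {A B : 𝒱.Obj} (f : A ⟶ B) (l : ℕ) (x : W.H B) :
    proj (W.isInternal A) l (W.map f x) = W.map f (proj (W.isInternal B) l x) := by
  refine gr_induction (W.isInternal B) (p := fun x => proj (W.isInternal A) l (W.map f x) =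
    W.map f (proj (W.isInternal B) l x)) ?_ ?_ x
  · intro j x hx
    by_cases hj : j = l
    · subst hj
      rw [proj_same _ hx, proj_same _ (W.map_mem f hx)]
    · rw [proj_ne _ hx hj, proj_ne _ (W.map_mem f hx) hj, map_zero]
  · intro a b ha hb
    rw [map_add, map_add, ha, hb, map_add, map_add]

theorem proj_act {A : 𝒱.Obj} {ρ : W.H A ≃ₐ[W.K] W.H A} (hρ : ∀ i, ∀ a ∈ W.gr A i, ρ a ∈ W.gr A i)
    (l : ℕ) (x : W.H A) : ρ (proj (W.isInternal A) l x) = proj (W.isInternal A) l (ρ x) := by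
  refine gr_induction (W.isInternal A) (p := fun x => ρ (proj (W.isInternal A) l x) =
    proj (W.isInternal A) l (ρ x)) ?_ ?_ x
  · intro j x hx
    by_cases hj : j = l
    · subst hj
      rw [proj_same _ hx, proj_same _ (hρ _ _ hx)]
    · rw [proj_ne _ hx hj, proj_ne _ (hρ _ _ hx) hj, map_zero]
  · intro a b ha hb
    rw [map_add, map_add, ha, hb, map_add, map_add]

section pairs

variable {X Y : 𝒱.Obj} {f : X ⟶ Y} {s : TB W X (relPrimitive W f)}
  (hmid : relPrimitive W f ≤ W.gr X X.dim) {N : ℕ} {A : 𝒱.Obj} {π : Fin N → (A ⟶ X)}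

/-- the degrees -/
def dgb (X : 𝒱.Obj) {NT : ℕ} (i : Unit ⊕ Fin NT) : ℕ := i.elim (fun _ => 0) fun _ => X.dim

include hmid in
theorem bx_gr (i : Unit ⊕ Fin s.NT) :
    bx (fun i => (s.bT i : W.H X)) i ∈ W.gr X (dgb X i) := by
  rcases i with i | i
  · exact W.one_mem X
  · exact hmid (s.bT i).2

include hmid in
/-- **The sums over the free positions.** -/
theorem pair_sum {c₀ : Fin N → Option Unit} {m : ℕ} (e : Fin m × Fin 2 ≃ Free c₀) : ∃ ε : ℤ,
    ∑ r : Free c₀ → Fin s.NT, GQ (Matrix.of fun i j => bil W X (s.uT i) (s.uT j)) e r •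
      mono π (fun p => bx (fun i => (s.bT i : W.H X)) (comb c₀ r p)) =
      (ε : W.K) • (List.ofFn fun l : Fin m =>
        W.map (Obj.lift (π (e (l, 0)).1) (π (e (l, 1)).1)) (dG s)).prod := by
  obtain ⟨ε, hε⟩ := sum_pattern (K := W.K)
    (E := fun p i => W.map (π p) (bx (fun i => (s.bT i : W.H X)) i)) (dg := dgb X)
    (d := X.dim) (fun _ => rfl) (fun p q _ i j => W.comm (W.map_mem _ (bx_gr hmid i))
      (W.map_mem _ (bx_gr hmid j))) e (fun i j => bil W X (s.uT i) (s.uT j))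
  refine ⟨ε, hε.trans ?_⟩
  have h1 : ((fixList c₀).map fun p => (c₀ p).elim (1 : W.H A) fun i =>
      W.map (π p) (bx (fun i => (s.bT i : W.H X)) (Sum.inl i))).prod = 1 := by
    refine List.prod_eq_one fun x hx => ?_
    obtain ⟨p, _, rfl⟩ := List.mem_map.1 hx
    cases c₀ p with
    | none => rfl
    | some i => exact map_one (W.map (π p))
  rw [h1, mul_one]
  congr 3
  funext l
  rw [dG, map_sum]
  refine Finset.sum_congr rfl fun a _ => ?_
  rw [map_smul, map_mul, ← W.map_comp, ← W.map_comp, Obj.lift_fst, Obj.lift_snd]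
  rfl

theorem list_alg {ι : Type*} (L : List ι) (x : ι → W.H A) (h : ∀ i ∈ L, x i ∈ algSpan W A) :
    (L.map x).prod ∈ algSpan W A := by
  induction L with
  | nil => exact algSpan_one
  | cons i L ih =>
    rw [List.map_cons, List.prod_cons]
    exact algSpan_mul (h i List.mem_cons_self) (ih fun j hj => h j (List.mem_cons_of_mem _ hj))

theorem list_gr {ι : Type*} (L : List ι) (x : ι → W.H A) {d : ℕ} (h : ∀ i ∈ L, x i ∈ W.gr A d) :
    (L.map x).prod ∈ W.gr A (d * L.length) := by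
  induction L with
  | nil => exact W.one_mem A
  | cons i L ih =>
    rw [List.map_cons, List.prod_cons, List.length_cons, mul_add, mul_one, add_comm]
    exact W.mul_mem (h i List.mem_cons_self) (ih fun j hj => h j (List.mem_cons_of_mem _ hj))

end pairs

section

variable {P Q : Polarized 𝒱} {n : ℕ} {Z : 𝒱.Obj} {f : P.X ⟶ Q.X} {z : W.H (P.X.prod Q.X)}
  {J : Type} [Fintype J] {e : Module.Basis J W.K (W.H P.X)}
  {b : Module.Basis (Fin (n + 1) → J) W.K (W.H (nest ops n fun _ => P).X)}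

/-- the linear map `x ↦ (v, x)` -/
noncomputable def oneL (W : WeilCohomology.{u, v} ops) (X Y : 𝒱.Obj) :
    W.H X →ₗ[W.K] (W.H X →ₗ[W.K] W.H Y) where
  toFun v := (bil W X v).smulRight 1
  map_add' v v' := by
    apply LinearMap.ext
    intro x
    simp [add_smul]
  map_smul' c v := by
    apply LinearMap.ext
    intro x
    simp [smul_smul]

theorem oneL_apply {X Y : 𝒱.Obj} (v x : W.H X) : oneL W X Y v x = bil W X v x • (1 : W.H Y) := rfl

/-- the map at the fixed positions -/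
noncomputable def sL (z : W.H (P.X.prod Q.X)) (c₀ : Fin (n + 1) → Option Unit)
    (p : Fin (n + 1)) : W.H P.X →ₗ[W.K] W.H Q.X :=
  (par (W.isInternal Q.X) ^ kap W P.X P.X.dim c₀ p) ∘ₗ W.corr z

/-- The multilinear map on the primitive part at the free positions. -/
noncomputable def hS (f : P.X ⟶ Q.X) (z : W.H (P.X.prod Q.X)) (e : Module.Basis J W.K (W.H P.X))
    (b : Module.Basis (Fin (n + 1) → J) W.K (W.H (nest ops n fun _ => P).X))
    (c : W.H ((nest ops n fun _ => P).X.prod Z)) (c₀ : Fin (n + 1) → Option Unit) :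
    MultilinearMap W.K (fun _ : Free c₀ => relPrimitive W f)
      (W.H ((nest ops n fun _ => Q).X.prod Z)) :=
  ((MJ Q e b c).domDomRestrict (fun p => c₀ p = none) fun a => sL z c₀ a.1).compLinearMap
    fun _ => (oneL W P.X Q.X) ∘ₗ (relPrimitive W f).subtype

theorem hS_apply (c : W.H ((nest ops n fun _ => P).X.prod Z)) (c₀ : Fin (n + 1) → Option Unit)
    (v : Free c₀ → relPrimitive W f) :
    hS f z e b c c₀ v = MJ Q e b c fun p => if h : c₀ p = none then
      oneL W P.X Q.X (v ⟨p, h⟩ : W.H P.X) else sL z c₀ p := rfl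

variable (hb : ∀ r, b r = mono (prj ops n fun _ => P) fun p => e (r p))
  (hmid : relPrimitive W f ≤ W.gr P.X P.X.dim)
  (hz : ∀ x, x - W.map f (W.corr z x) ∈ relPrimitive W f) (s : TB W P.X (relPrimitive W f))

include hb hmid hz in
/-- **The decomposition by patterns.** -/
theorem recon (c : W.H ((nest ops n fun _ => P).X.prod Z)) :
    c = ∑ c₀ : Fin (n + 1) → Option Unit, ∑ r : Free c₀ → Fin s.NT,
      W.map (fst _ Z) (mono (prj ops n fun _ => P) fun p =>
        bx (fun i => (s.bT i : W.H P.X)) (comb c₀ r p)) *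
        W.map (powMap ops f n Z) (hS f z e b c c₀ fun j => s.uT (r j)) := by
  refine pow_ext hb (L := fun c => c) (L' := fun c =>
    ∑ c₀ : Fin (n + 1) → Option Unit, ∑ r : Free c₀ → Fin s.NT,
      W.map (fst _ Z) (mono (prj ops n fun _ => P) fun p =>
        bx (fun i => (s.bT i : W.H P.X)) (comb c₀ r p)) *
        W.map (powMap ops f n Z) (hS f z e b c c₀ fun j => s.uT (r j))) (fun _ _ => rfl) ?_ ?_ c
  · intro a c
    rw [← Finset.sum_add_distrib]
    refine Finset.sum_congr rfl fun c₀ _ => ?_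
    rw [← Finset.sum_add_distrib]
    refine Finset.sum_congr rfl fun r _ => ?_
    rw [hS_apply, hS_apply, hS_apply, MJ_add, map_add, mul_add]
  · intro a w
    have h1 := mono_pattern (W := W) (prj ops n fun _ => P) (d := P.X.dim)
      (bT := fun i => (s.bT i : W.H P.X)) (fun i => hmid (s.bT i).2)
      (uf := fun i => bil W P.X (s.uT i)) (pC := (W.map f).toLinearMap ∘ₗ W.corr z)
      (decomp hz s) a
    conv_lhs => rw [h1]
    rw [map_sum, Finset.sum_mul]
    refine Finset.sum_congr rfl fun c₀ _ => ?_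
    rw [map_sum, Finset.sum_mul]
    refine Finset.sum_congr rfl fun r _ => ?_
    rw [hS_apply, MJ_mono hb, map_powMap, ← mul_assoc, ← map_mul]
    congr 3
    congr 1
    funext p
    by_cases h : c₀ p = none
    · rw [dif_pos h, dif_pos h, oneL_apply, map_smul, map_one]
    · rw [dif_neg h, dif_neg h]
      exact (par_map f _ _).symm

variable {Γ : Type w} [Group Γ] {χ : Γ →* W.Kˣ} {ρ : Γ →* (W.H P.X ≃ₐ[W.K] W.H P.X)}
  {ρ' : Γ →* (W.H Q.X ≃ₐ[W.K] W.H Q.X)} {τ : Γ →* (W.H Z ≃ₐ[W.K] W.H Z)}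
  {υ : Γ →* (W.H ((nest ops n fun _ => P).X.prod Z) ≃ₐ[W.K]
    W.H ((nest ops n fun _ => P).X.prod Z))}
  {υ' : Γ →* (W.H ((nest ops n fun _ => Q).X.prod Z) ≃ₐ[W.K]
    W.H ((nest ops n fun _ => Q).X.prod Z))}

/-- the primitive part is stable -/
theorem act_rel (hG : IsGalois W χ P.X ρ) (hf : Intertwines (W.map f) ρ' ρ) (g : Γ) {v : W.H P.X}
    (hv : v ∈ relPrimitive W f) : ρ g v ∈ relPrimitive W f := by
  refine rel_of fun y => ?_
  have h1 := bil_act hG g v (W.map f (ρ' g⁻¹ y))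
  rw [rel_map hv, mul_zero, hf g, act_inv] at h1
  exact h1

/-- the action on the primitive part -/
noncomputable def rhoR (hG : IsGalois W χ P.X ρ) (hf : Intertwines (W.map f) ρ' ρ) :
    Γ →* (relPrimitive W f →ₗ[W.K] relPrimitive W f) where
  toFun g := (ρ g).toLinearMap.restrict fun _ hv => act_rel hG hf g hv
  map_one' := by
    apply LinearMap.ext
    intro t
    apply Subtype.ext
    change ρ 1 (t : W.H P.X) = t
    rw [map_one]
    rfl
  map_mul' g g' := by
    apply LinearMap.ext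
    intro t
    apply Subtype.ext
    change ρ (g * g') (t : W.H P.X) = ρ g (ρ g' (t : W.H P.X))
    rw [map_mul]
    rfl

theorem rhoR_apply (hG : IsGalois W χ P.X ρ) (hf : Intertwines (W.map f) ρ' ρ) (g : Γ)
    (t : relPrimitive W f) : (rhoR hG hf g t : W.H P.X) = ρ g t := rfl

theorem SI_rhoR (hG : IsGalois W χ P.X ρ) (hf : Intertwines (W.map f) ρ' ρ)
    (h : IrredAct ρ (relPrimitive W f)) : SI (rhoR hG hf) := by
  intro Δ hΔ U hU
  have hst : ∀ g ∈ Δ, ∀ a ∈ U.map (relPrimitive W f).subtype,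
      ρ g a ∈ U.map (relPrimitive W f).subtype := by
    rintro g hg _ ⟨x, hx, rfl⟩
    exact ⟨rhoR hG hf g x, hU g hg x hx, rfl⟩
  rcases h Δ hΔ (U.map (relPrimitive W f).subtype) (Submodule.map_subtype_le _ _) hst with
    h1 | h1
  · left
    rw [eq_bot_iff]
    intro x hx
    have h2 : (x : W.H P.X) ∈ U.map (relPrimitive W f).subtype := ⟨x, hx, rfl⟩
    rw [h1, Submodule.mem_bot] at h2
    exact (Submodule.mem_bot _).2 (Subtype.ext h2)
  · right
    rw [eq_top_iff]
    intro x _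
    have h2 : (x : W.H P.X) ∈ U.map (relPrimitive W f).subtype := by
      rw [h1]
      exact x.2
    obtain ⟨y, hy, hyx⟩ := h2
    have h3 : y = x := Subtype.ext hyx
    rwa [h3] at hy

/-- the action commutes with the correspondence -/
theorem corr_act {X Y : 𝒱.Obj} {ρ : Γ →* (W.H X ≃ₐ[W.K] W.H X)}
    {ρ' : Γ →* (W.H Y ≃ₐ[W.K] W.H Y)} {ω : Γ →* (W.H (X.prod Y) ≃ₐ[W.K] W.H (X.prod Y))}
    (hY : IsGalois W χ Y ρ') (hXY : IsGalois W χ (X.prod Y) ω)
    (h1 : Intertwines (W.map (fst X Y)) ρ ω) (h2 : Intertwines (W.map (snd X Y)) ρ' ω)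
    {z : W.H (X.prod Y)} {g : Γ} (hzg : ω g z = (χ g : W.K) ^ X.dim • z) (x : W.H X) :
    W.corr z (ρ g x) = ρ' g (W.corr z x) := by
  have hχ : (χ g : W.K) ≠ 0 := Units.ne_zero _
  apply W.tr_ext
  intro y
  have h3 : y = ρ' g (ρ' g⁻¹ y) := (act_inv ρ' g y).symm
  have e1 : W.tr Y (ρ' g (W.corr z x) * y) = (χ g : W.K) ^ Y.dim *
      W.tr (X.prod Y) (z * W.map (fst X Y) x * W.map (snd X Y) (ρ' g⁻¹ y)) := by
    conv_lhs => rw [h3]
    rw [← map_mul, hY.tr_act, corr_apply, W.tr_push]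
  have e2 : W.tr Y (W.corr z (ρ g x) * y) =
      W.tr (X.prod Y) (z * W.map (fst X Y) (ρ g x) * W.map (snd X Y) y) := by
    rw [corr_apply, W.tr_push]
  have e3 := hXY.tr_act g (z * W.map (fst X Y) x * W.map (snd X Y) (ρ' g⁻¹ y))
  rw [map_mul (ω g), map_mul (ω g), h1 g, h2 g, act_inv, hzg, smul_mul_assoc, smul_mul_assoc,
    map_smul, smul_eq_mul, dim_prod, pow_add, mul_assoc ((χ g : W.K) ^ X.dim)] at e3
  rw [e1, e2]
  exact mul_left_cancel₀ (pow_ne_zero _ hχ) e3

/-- the twisting character -/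
noncomputable def lam (χ : Γ →* W.Kˣ) (P : Polarized 𝒱) (c₀ : Fin (n + 1) → Option Unit)
    (j : ℕ) : Γ →* W.Kˣ := (χ ^ j)⁻¹ * (χ ^ P.X.dim) ^ Fintype.card (Free c₀)

theorem lam_apply (c₀ : Fin (n + 1) → Option Unit) (j : ℕ) (g : Γ) :
    lam χ P c₀ j g = (χ g ^ j)⁻¹ * (χ g ^ P.X.dim) ^ Fintype.card (Free c₀) := by
  simp [lam]

include hb in
/-- **Equivariance.** -/
theorem hS_eqv (hG : IsGalois W χ P.X ρ) (hG' : IsGalois W χ Q.X ρ')
    (hf : Intertwines (W.map f) ρ' ρ) (hP : IsPowAct W P n Z ρ τ υ)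
    (hQ : IsPowAct W Q n Z ρ' τ υ') {c : W.H ((nest ops n fun _ => P).X.prod Z)} {j : ℕ} {g : Γ}
    (hc : υ g c = (χ g : W.K) ^ j • c) (hzg : ∀ x, W.corr z (ρ g x) = ρ' g (W.corr z x))
    (c₀ : Fin (n + 1) → Option Unit) (v : Free c₀ → relPrimitive W f) :
    hS f z e b c c₀ (fun a => rhoR hG hf g (v a)) =
      twist (lam χ P c₀ j) υ' g (hS f z e b c c₀ v) := by
  have hχ : (χ g : W.K) ≠ 0 := Units.ne_zero _
  set μ : W.K := (χ g : W.K) ^ P.X.dim with hμ
  have hμ0 : μ ≠ 0 := pow_ne_zero _ hχ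
  -- the transformed maps
  have h1 := MJ_equiv hb (hP g).1 (hP g).2 (hQ g).1 (hQ g).2
    (φ := fun p => if h : c₀ p = none then oneL W P.X Q.X (v ⟨p, h⟩ : W.H P.X) else sL z c₀ p)
    (φ' := fun p => if h : c₀ p = none then
      μ⁻¹ • oneL W P.X Q.X (rhoR hG hf g (v ⟨p, h⟩) : W.H P.X) else sL z c₀ p)
    (fun p a => by
      by_cases h : c₀ p = none
      · rw [dif_pos h, dif_pos h, LinearMap.smul_apply, oneL_apply, oneL_apply, rhoR_apply,
          bil_act hG, map_smul, map_one, smul_smul, ← mul_assoc, ← hμ, inv_mul_cancel₀ hμ0,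
          one_mul]
      · rw [dif_neg h, dif_neg h, sL, LinearMap.comp_apply, LinearMap.comp_apply, hzg,
          par_act (fun i a ha => hG'.gr_mem g i a ha)]) c
  rw [hc, MJ_smul] at h1
  have h2 := MultilinearMap.map_smul_univ
    ((MJ Q e b c).domDomRestrict (fun p => c₀ p = none) fun a => sL z c₀ a.1)
    (fun _ : Free c₀ => μ⁻¹) (fun a => oneL W P.X Q.X (rhoR hG hf g (v a) : W.H P.X))
  have h3 : MJ Q e b c (fun p => if h : c₀ p = none then
      μ⁻¹ • oneL W P.X Q.X (rhoR hG hf g (v ⟨p, h⟩) : W.H P.X) else sL z c₀ p) =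
      μ⁻¹ ^ Fintype.card (Free c₀) • hS f z e b c c₀ (fun a => rhoR hG hf g (v a)) := by
    rw [Finset.prod_const, Finset.card_univ] at h2
    exact h2
  rw [h3, ← hS_apply] at h1
  rw [twist_apply, ← h1, smul_smul, smul_smul, lam_apply]
  have h4 : (((χ g ^ j)⁻¹ * (χ g ^ P.X.dim) ^ Fintype.card (Free c₀) : W.Kˣ) : W.K) *
      (χ g : W.K) ^ j * μ⁻¹ ^ Fintype.card (Free c₀) = 1 := by
    push_cast
    rw [← hμ, inv_pow]
    field_simp
  rw [h4, one_smul]

end

end Pool.Agent.TH125.Sec
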