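import Pool.Agent.TH125.Sec.Jop
import Pool.Agent.TH125.Gal.Rec

/-!
# Signs, and the decomposition of monomials by patterns
-/

open CategoryTheory AlgebraicGeometry Finset

set_option linter.unusedSectionVars false

universe u v w

namespace Pool.Agent.TH125.Sec

open Pool.Agent.H914 Pool.Agent.H914.VarClass Pool.Agent.H914.VarClass.Obj
  Pool.Agent.H914.WeilCohomology Pool.Agent.H281R3.HT Pool.Agent.W552 Pool.Agent.TH125.Gal

variable {k : Type u} [Field k] {𝒱 : VarClass k} {ops : CycleOps 𝒱}
  {W : WeilCohomology.{u, v} ops}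

theorem par_gr {X : 𝒱.Obj} {i : ℕ} {x : W.H X} (hx : x ∈ W.gr X i) (m : ℕ) :
    (par (W.isInternal X) ^ m) x = (-1 : W.K) ^ (i * m) • x := by
  induction m with
  | zero => simp
  | succ m ih =>
    rw [pow_succ', Module.End.mul_apply, ih, map_smul, par, scal_apply _ _ hx, smul_smul,
      ← pow_add, Nat.mul_succ, add_comm]

theorem par_map {X Y : 𝒱.Obj} (f : X ⟶ Y) (m : ℕ) (x : W.H Y) :
    W.map f ((par (W.isInternal Y) ^ m) x) = (par (W.isInternal X) ^ m) (W.map f x) := by
  refine gr_induction (W.isInternal Y) (p := fun x => W.map f ((par (W.isInternal Y) ^ m) x) =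
    (par (W.isInternal X) ^ m) (W.map f x)) ?_ ?_ x
  · intro i x hx
    rw [par_gr hx, map_smul, par_gr (W.map_mem f hx)]
  · intro a b ha hb
    rw [map_add, map_add, ha, hb, map_add, map_add]

theorem par_comm {X : 𝒱.Obj} {d : ℕ} {v : W.H X} (hv : v ∈ W.gr X d) (x : W.H X) :
    x * v = v * (par (W.isInternal X) ^ d) x := by
  refine gr_induction (W.isInternal X) (p := fun x => x * v =
    v * (par (W.isInternal X) ^ d) x) ?_ ?_ x
  · intro i x hx
    rw [par_gr hx, mul_smul_comm]
    exact W.comm hx hv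
  · intro a b ha hb
    rw [add_mul, ha, hb, map_add, mul_add]

theorem par_act {X : 𝒱.Obj} {ρ : W.H X ≃ₐ[W.K] W.H X} (hρ : ∀ i, ∀ a ∈ W.gr X i, ρ a ∈ W.gr X i)
    (m : ℕ) (x : W.H X) : ρ ((par (W.isInternal X) ^ m) x) =
      (par (W.isInternal X) ^ m) (ρ x) := by
  refine gr_induction (W.isInternal X) (p := fun x => ρ ((par (W.isInternal X) ^ m) x) =
    (par (W.isInternal X) ^ m) (ρ x)) ?_ ?_ x
  · intro i x hx
    rw [par_gr hx, map_smul, par_gr (hρ i x hx)]
  · intro a b ha hb
    rw [map_add, map_add, ha, hb, map_add, map_add]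

section

variable {X : 𝒱.Obj}

/-- moving a class through a product -/
theorem exists_pass (W : WeilCohomology.{u, v} ops) (X : 𝒱.Obj) (d : ℕ) :
    ∀ (N : ℕ) (free : Fin N → Prop) [DecidablePred free],
    ∃ m : ℕ, ∀ (Y : 𝒱.Obj) (π : Fin N → (Y ⟶ X)) (v : Fin N → W.H X), (∀ p, v p ∈ W.gr X d) →
      ∀ y : W.H Y, y * mono π (fun p => if free p then v p else 1) =
        mono π (fun p => if free p then v p else 1) * (par (W.isInternal Y) ^ m) y := by
  intro N
  induction N with
  | zero =>
    intro free _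
    refine ⟨0, fun Y π v _ y => ?_⟩
    rw [mono, List.ofFn_zero, List.prod_nil, mul_one, one_mul, pow_zero, Module.End.one_apply]
  | succ N ih =>
    intro free _
    obtain ⟨m, hm⟩ := ih (fun p => free p.succ)
    by_cases h0 : free 0
    · refine ⟨m + d, fun Y π v hv y => ?_⟩
      rw [mono_succ, if_pos h0, ← mul_assoc, par_comm (W.map_mem (π 0) (hv 0)), mul_assoc,
        hm Y (fun p => π p.succ) (fun p => v p.succ) (fun p => hv p.succ), mul_assoc, pow_add,
        Module.End.mul_apply]
    · refine ⟨m, fun Y π v hv y => ?_⟩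
      rw [mono_succ, if_neg h0, map_one, one_mul]
      exact hm Y (fun p => π p.succ) (fun p => v p.succ) (fun p => hv p.succ) y

/-- **Separating the factors of two types.** -/
theorem exists_sep (W : WeilCohomology.{u, v} ops) (X : 𝒱.Obj) (d : ℕ) :
    ∀ (N : ℕ) (free : Fin N → Prop) [DecidablePred free],
    ∃ κ : Fin N → ℕ, ∀ (Y : 𝒱.Obj) (π : Fin N → (Y ⟶ X)) (v x : Fin N → W.H X),
      (∀ p, v p ∈ W.gr X d) →
      mono π (fun p => if free p then v p else 1) *
        mono π (fun p => if free p then 1 else (par (W.isInternal X) ^ κ p) (x p)) =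
        mono π (fun p => if free p then v p else x p) := by
  intro N
  induction N with
  | zero =>
    intro free _
    refine ⟨fun _ => 0, fun Y π v x _ => ?_⟩
    rw [mono, mono, mono, List.ofFn_zero, List.ofFn_zero, List.ofFn_zero, List.prod_nil, mul_one]
  | succ N ih =>
    intro free _
    obtain ⟨κ, hκ⟩ := ih (fun p => free p.succ)
    obtain ⟨m, hm⟩ := exists_pass W X d N (fun p => free p.succ)
    refine ⟨Fin.cons m κ, fun Y π v x hv => ?_⟩
    have h1 := hκ Y (fun p => π p.succ) (fun p => v p.succ) (fun p => x p.succ)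
      (fun p => hv p.succ)
    rw [mono_succ, mono_succ, mono_succ]
    simp only [Fin.cons_succ]
    rw [← h1]
    by_cases h0 : free 0
    · rw [if_pos h0, if_pos h0, if_pos h0, map_one, one_mul, mul_assoc]
    · rw [if_neg h0, if_neg h0, if_neg h0, map_one, one_mul, Fin.cons_zero, par_map,
        ← mul_assoc, ← mul_assoc]
      congr 1
      exact (hm Y (fun p => π p.succ) (fun p => v p.succ) (fun p => hv p.succ) _).symm

end

section pattern

variable {X : 𝒱.Obj} {N NT : ℕ} {c₀ : Fin N → Option Unit}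

/-- The exponents for the signs. -/
noncomputable def kap (W : WeilCohomology.{u, v} ops) (X : 𝒱.Obj) (d : ℕ) {N : ℕ}
    (c₀ : Fin N → Option Unit) : Fin N → ℕ :=
  Classical.choose (exists_sep W X d N fun p => c₀ p = none)

theorem kap_spec (W : WeilCohomology.{u, v} ops) (X : 𝒱.Obj) (d : ℕ) {N : ℕ}
    (c₀ : Fin N → Option Unit) {Y : 𝒱.Obj} (π : Fin N → (Y ⟶ X)) (v x : Fin N → W.H X)
    (hv : ∀ p, v p ∈ W.gr X d) :
    mono π (fun p => if c₀ p = none then v p else 1) *
      mono π (fun p => if c₀ p = none then 1 else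
        (par (W.isInternal X) ^ kap W X d c₀ p) (x p)) =
      mono π (fun p => if c₀ p = none then v p else x p) :=
  Classical.choose_spec (exists_sep W X d N fun p => c₀ p = none) Y π v x hv

/-- the unit at the fixed positions, the basis vectors at the free positions -/
def bx (bT : Fin NT → W.H X) (i : Unit ⊕ Fin NT) : W.H X := i.elim (fun _ => 1) bT

theorem comb_bx (bT : Fin NT → W.H X) (r : Free c₀ → Fin NT) (p : Fin N) :
    bx bT (comb c₀ r p) = if h : c₀ p = none then bT (r ⟨p, h⟩) else 1 := by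
  by_cases h : c₀ p = none
  · rw [dif_pos h, comb_none r ⟨p, h⟩]
    rfl
  · obtain ⟨i, hi⟩ := Option.ne_none_iff_exists'.1 h
    rw [dif_neg h, comb_some r hi]
    rfl

variable {Y : 𝒱.Obj} (π : Fin N → (Y ⟶ X))

/-- monomials with fixed entries -/
theorem restrict_apply (z : (a : {a // ¬ c₀ a = none}) → W.H X) (v : Free c₀ → W.H X) :
    (monoML π).domDomRestrict (fun p => c₀ p = none) z v =
      mono π (fun p => if h : c₀ p = none then v ⟨p, h⟩ else z ⟨p, h⟩) := rfl

/-- **The decomposition of monomials.** -/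
theorem mono_pattern {d : ℕ} {bT : Fin NT → W.H X} (hbT : ∀ i, bT i ∈ W.gr X d)
    {uf : Fin NT → W.H X →ₗ[W.K] W.K} {pC : W.H X →ₗ[W.K] W.H X}
    (hp : ∀ x, x = pC x + ∑ i, uf i x • bT i) (a : Fin N → W.H X) :
    mono π a = ∑ c₀ : Fin N → Option Unit, ∑ r : Free c₀ → Fin NT,
      mono π (fun p => bx bT (comb c₀ r p)) *
        mono π (fun p => if h : c₀ p = none then uf (r ⟨p, h⟩) (a p) • (1 : W.H X) else
          (par (W.isInternal X) ^ kap W X d c₀ p) (pC (a p))) := by
  classical
  set g : Fin N → Option Unit → W.H X := fun p o =>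
    o.elim (∑ i, uf i (a p) • bT i) fun _ => pC (a p) with hg
  have h1 : mono π a = ∑ c₀ : Fin N → Option Unit, mono π (fun p => g p (c₀ p)) := by
    have h2 := (monoML (W := W) π).map_sum g
    rw [← monoML_apply]
    refine Eq.trans ?_ h2
    congr 1
    funext p
    rw [Fintype.sum_option, Fintype.sum_unique, add_comm]
    exact hp (a p)
  rw [h1]
  refine Finset.sum_congr rfl fun c₀ _ => ?_
  have h2 : mono π (fun p => g p (c₀ p)) = mono π (fun p => if c₀ p = none then
      (∑ i, uf i (a p) • bT i) else pC (a p)) := by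
    congr 1
    funext p
    cases h : c₀ p with
    | none => rw [if_pos rfl]; rfl
    | some i => rw [if_neg (by simp)]; rfl
  rw [h2, ← kap_spec W X d c₀ π (fun p => ∑ i, uf i (a p) • bT i) (fun p => pC (a p))
    (fun p => Submodule.sum_mem _ fun i _ => Submodule.smul_mem _ _ (hbT i))]
  have h3 : mono π (fun p => if c₀ p = none then (∑ i, uf i (a p) • bT i) else (1 : W.H X)) =
      ∑ r : Free c₀ → Fin NT, (∏ p : Free c₀, uf (r p) (a p.1)) •
        mono π (fun p => bx bT (comb c₀ r p)) := by
    have h4 := ((monoML (W := W) π).domDomRestrict (fun p => c₀ p = none) fun _ => 1).map_sum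
      (fun (p : Free c₀) (i : Fin NT) => uf i (a p.1) • bT i)
    rw [restrict_apply] at h4
    refine Eq.trans ?_ (h4.trans (Finset.sum_congr rfl fun r _ => ?_))
    · congr 1
    · rw [MultilinearMap.map_smul_univ ((monoML (W := W) π).domDomRestrict
        (fun p => c₀ p = none) fun _ => 1) (fun p : Free c₀ => uf (r p) (a p.1))
        (fun p => bT (r p)), restrict_apply]
      congr 2
      funext p
      rw [comb_bx]
  have h5 : ∀ r : Free c₀ → Fin NT, mono π (fun p => if h : c₀ p = none then
      uf (r ⟨p, h⟩) (a p) • (1 : W.H X) else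
        (par (W.isInternal X) ^ kap W X d c₀ p) (pC (a p))) =
      (∏ p : Free c₀, uf (r p) (a p.1)) • mono π (fun p => if c₀ p = none then 1 else
        (par (W.isInternal X) ^ kap W X d c₀ p) (pC (a p))) := by
    intro r
    have h6 := MultilinearMap.map_smul_univ ((monoML (W := W) π).domDomRestrict
        (fun p => c₀ p = none) fun p => (par (W.isInternal X) ^ kap W X d c₀ p.1) (pC (a p.1)))
        (fun p : Free c₀ => uf (r p) (a p.1)) (fun p => 1)
    rw [restrict_apply, restrict_apply] at h6
    refine Eq.trans ?_ (h6.trans ?_)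
    · rfl
    · congr 2
  rw [h3, Finset.sum_mul]
  refine Finset.sum_congr rfl fun r _ => ?_
  rw [h5, smul_mul_assoc, mul_smul_comm]

end pattern

end Pool.Agent.TH125.Sec
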