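import Pool.Agent.TH125.Sec.Def
import Pool.Agent.TH125.Sec.Sgn
import Pool.Agent.TH125.Gal.Tate

/-!
# The primitive part, dual bases, and the primitive part of the diagonal
-/

open CategoryTheory AlgebraicGeometry Finset

set_option linter.unusedSectionVars false

universe u v w

namespace Pool.Agent.TH125.Sec

open Pool.Agent.H914 Pool.Agent.H914.VarClass Pool.Agent.H914.VarClass.Obj
  Pool.Agent.H914.WeilCohomology Pool.Agent.H281R3.HT Pool.Agent.W552 Pool.Agent.TH125.Gal

variable {k : Type u} [Field k] {𝒱 : VarClass k} {ops : CycleOps 𝒱}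
  {W : WeilCohomology.{u, v} ops} {X Y : 𝒱.Obj} {f : X ⟶ Y}

theorem mem_rel {v : W.H X} : v ∈ relPrimitive W f ↔ W.push f v = 0 := LinearMap.mem_ker

theorem rel_map {v : W.H X} (hv : v ∈ relPrimitive W f) (y : W.H Y) :
    bil W X v (W.map f y) = 0 := by
  rw [bil_apply, ← W.tr_push, mem_rel.1 hv, zero_mul, map_zero]

theorem rel_of {v : W.H X} (h : ∀ y, bil W X v (W.map f y) = 0) : v ∈ relPrimitive W f := by
  rw [mem_rel]
  apply W.nondeg
  intro y
  rw [W.tr_push, ← bil_apply, h]

theorem map_rel (hmid : relPrimitive W f ≤ W.gr X X.dim) {v : W.H X}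
    (hv : v ∈ relPrimitive W f) (y : W.H Y) : bil W X (W.map f y) v = 0 := by
  refine gr_induction (W.isInternal Y) (p := fun y => bil W X (W.map f y) v = 0) ?_ ?_ y
  · intro i y hy
    rw [bil_apply, W.comm (W.map_mem f hy) (hmid hv), map_smul, ← bil_apply, rel_map hv, smul_zero]
  · intro a b ha hb
    rw [map_add, map_add, LinearMap.add_apply, ha, hb, add_zero]

/-- A subspace with a nondegenerate form has dual bases. -/
structure TB (W : WeilCohomology.{u, v} ops) (X : 𝒱.Obj) (T : Submodule W.K (W.H X)) where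
  /-- the dimension -/
  NT : ℕ
  /-- a basis -/
  bT : Module.Basis (Fin NT) W.K T
  /-- the dual basis -/
  uT : Module.Basis (Fin NT) W.K T
  uT_bT : ∀ i j, bil W X (uT i) (bT j) = if j = i then 1 else 0

theorem exists_TB {T : Submodule W.K (W.H X)}
    (h1 : ∀ a, (∀ b, rform W X T a b = 0) → a = 0) : Nonempty (TB W X T) := by
  have hT : LinearMap.BilinForm.Nondegenerate (rform W X T) := by
    refine ⟨h1, ?_⟩
    have h2 : Function.Injective (rform W X T) :=
      (injective_iff_map_eq_zero _).2 fun a ha => h1 a fun b => by rw [ha]; rfl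
    intro a ha
    by_contra ha0
    have h3 : Function.Surjective (rform W X T) :=
      (LinearMap.injective_iff_surjective_of_finrank_eq_finrank
        (Subspace.dual_finrank_eq).symm).1 h2
    obtain ⟨φ, hφ⟩ : ∃ φ : Module.Dual W.K T, φ a ≠ 0 := by
      by_contra hcon
      push Not at hcon
      exact ha0 ((Module.forall_dual_apply_eq_zero_iff W.K a).1 hcon)
    obtain ⟨b, rfl⟩ := h3 φ
    exact hφ (ha b)
  let bT := Module.finBasis W.K T
  exact ⟨{
    NT := Module.finrank W.K T
    bT := bT
    uT := LinearMap.BilinForm.dualBasis _ hT bT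
    uT_bT := fun i j => LinearMap.BilinForm.apply_dualBasis_left hT bT i j }⟩

namespace TB

variable {T : Submodule W.K (W.H X)} (s : TB W X T)

theorem expand_bT {t : W.H X} (ht : t ∈ T) :
    t = ∑ i, bil W X (s.uT i) t • (s.bT i : W.H X) := by
  have h1 := s.bT.sum_repr ⟨t, ht⟩
  have h2 : t = ∑ i, s.bT.repr ⟨t, ht⟩ i • (s.bT i : W.H X) := by
    conv_lhs => rw [show t = ((⟨t, ht⟩ : T) : W.H X) from rfl, ← h1]
    rw [Submodule.coe_sum]
    rfl
  have h3 : ∀ i, bil W X (s.uT i) t = s.bT.repr ⟨t, ht⟩ i := by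
    intro i
    conv_lhs => rw [h2]
    rw [map_sum, Finset.sum_eq_single i]
    · rw [map_smul, s.uT_bT, if_pos rfl, smul_eq_mul, mul_one]
    · intro j _ hj
      rw [map_smul, s.uT_bT, if_neg hj, smul_zero]
    · intro h
      exact absurd (Finset.mem_univ _) h
  rw [Finset.sum_congr rfl fun i _ => by rw [h3]]
  exact h2

theorem expand_uT {x : W.H X} (hx : x ∈ T) :
    x = ∑ i, bil W X x (s.bT i) • (s.uT i : W.H X) := by
  have h1 := s.uT.sum_repr ⟨x, hx⟩
  have h2 : x = ∑ i, s.uT.repr ⟨x, hx⟩ i • (s.uT i : W.H X) := by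
    conv_lhs => rw [show x = ((⟨x, hx⟩ : T) : W.H X) from rfl, ← h1]
    rw [Submodule.coe_sum]
    rfl
  have h3 : ∀ i, bil W X x (s.bT i) = s.uT.repr ⟨x, hx⟩ i := by
    intro i
    conv_lhs => rw [h2]
    rw [map_sum, LinearMap.sum_apply, Finset.sum_eq_single i]
    · rw [map_smul, LinearMap.smul_apply, s.uT_bT, if_pos rfl, smul_eq_mul, mul_one]
    · intro j _ hj
      rw [map_smul, LinearMap.smul_apply, s.uT_bT, if_neg (Ne.symm hj), smul_zero]
    · intro h
      exact absurd (Finset.mem_univ _) h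
  rw [Finset.sum_congr rfl fun i _ => by rw [h3]]
  exact h2

end TB

section split

variable {z : W.H (X.prod Y)} (hmid : relPrimitive W f ≤ W.gr X X.dim)
  (hz : ∀ x, x - W.map f (W.corr z x) ∈ relPrimitive W f)

include hmid hz in
theorem inter_zero {v : W.H X} (hv : v ∈ relPrimitive W f) {y : W.H Y} (hy : v = W.map f y) :
    v = 0 := by
  apply W.nondeg
  intro b
  have h1 : b = W.map f (W.corr z b) + (b - W.map f (W.corr z b)) := by abel
  rw [h1, mul_add, map_add, ← bil_apply, ← bil_apply, rel_map hv, zero_add, hy]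
  exact map_rel hmid (hz b) y

include hmid hz in
theorem pC_rel {v : W.H X} (hv : v ∈ relPrimitive W f) : W.map f (W.corr z v) = 0 := by
  refine inter_zero hmid hz ?_ rfl
  have h1 : W.map f (W.corr z v) = v - (v - W.map f (W.corr z v)) := by abel
  rw [h1]
  exact Submodule.sub_mem _ hv (hz v)

include hmid hz in
theorem pC_map (y : W.H Y) : W.map f (W.corr z (W.map f y)) = W.map f y := by
  have h1 := inter_zero hmid hz (hz (W.map f y))
    (y := y - W.corr z (W.map f y)) (by rw [map_sub])
  exact (sub_eq_zero.1 h1).symm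

include hmid hz in
theorem rel_nondeg (a : relPrimitive W f)
    (h : ∀ b, rform W X (relPrimitive W f) a b = 0) : a = 0 := by
  apply Subtype.ext
  apply W.nondeg
  intro b
  have h1 : b = W.map f (W.corr z b) + (b - W.map f (W.corr z b)) := by abel
  rw [h1, mul_add, map_add, ← bil_apply, ← bil_apply, rel_map a.2, zero_add]
  exact h ⟨_, hz b⟩

variable (s : TB W X (relPrimitive W f))

include hz in
theorem decomp (x : W.H X) : x = W.map f (W.corr z x) +
    ∑ i, bil W X (s.uT i) x • (s.bT i : W.H X) := by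
  have h1 := s.expand_bT (hz x)
  have h2 : ∀ i, bil W X (s.uT i) (x - W.map f (W.corr z x)) = bil W X (s.uT i) x := by
    intro i
    rw [map_sub, rel_map (s.uT i).2, sub_zero]
  simp only [h2] at h1
  rw [← h1]
  abel

/-- the symmetry of the form in the middle degree -/
theorem rel_symm {a b : W.H X} (ha : a ∈ W.gr X X.dim) (hb : b ∈ W.gr X X.dim) :
    bil W X a b = (-1 : W.K) ^ X.dim * bil W X b a := by
  rw [bil_apply, W.comm ha hb, map_smul, smul_eq_mul, bil_apply]
  congr 1
  rcases Nat.even_or_odd X.dim with h | h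
  · rw [h.neg_one_pow, (h.mul_left _).neg_one_pow]
  · rw [h.neg_one_pow, (h.mul h).neg_one_pow]

/-- the map `X × X → X × Y` -/
noncomputable def idMap (f : X ⟶ Y) : X.prod X ⟶ X.prod Y :=
  Obj.lift (fst X X) (snd X X ≫ f)

/-- base change -/
theorem push_idMap (c : W.H (X.prod Y)) : W.push (snd X X) (W.map (idMap f) c) =
    W.map f (W.push (snd X Y) c) := by
  have e1 : idMap f ≫ fst X Y = fst X X := Obj.lift_fst _ _
  have e2 : idMap f ≫ snd X Y = snd X X ≫ f := Obj.lift_snd _ _
  refine W.kunneth_induction (p := fun c => W.push (snd X X) (W.map (idMap f) c) =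
    W.map f (W.push (snd X Y) c)) ?_ ?_ c
  · intro a b ha hb
    rw [map_add, map_add, ha, hb, map_add, map_add]
  · intro i j a _ b _
    rw [map_mul, ← W.map_comp, ← W.map_comp, e1, e2, W.map_comp, W.push_snd, W.push_snd, map_smul]

/-- the pairing with the class of the projector -/
theorem projector_pair (x y : W.H X) : W.tr (X.prod X) (W.map (idMap f) z *
    (W.map (fst X X) x * W.map (snd X X) y)) = bil W X (W.map f (W.corr z x)) y := by
  have e1 : idMap f ≫ fst X Y = fst X X := Obj.lift_fst _ _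
  rw [← mul_assoc, ← W.tr_push, ← e1, W.map_comp, ← map_mul, push_idMap, corr_apply, bil_apply]

/-- the primitive part of the diagonal -/
noncomputable def dP (s : TB W X (relPrimitive W f)) : W.H (X.prod X) :=
  ∑ i, W.map (fst X X) (s.bT i) * W.map (snd X X) (s.uT i)

include hmid hz in
/-- **The decomposition of the diagonal.** -/
theorem diag_dP : W.push (diag X) 1 = W.map (idMap f) z + dP s := by
  apply W.tr_ext
  intro c
  refine W.kunneth_induction (p := fun c => W.tr (X.prod X) (W.push (diag X) 1 * c) =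
    W.tr (X.prod X) ((W.map (idMap f) z + dP s) * c)) ?_ ?_ c
  · intro a b ha hb
    rw [mul_add, mul_add, map_add, map_add, ha, hb]
  · intro i j x hx y hy
    rw [diag_pair, add_mul, map_add, projector_pair, dP, Finset.sum_mul, map_sum]
    have e2 : ∀ l, W.tr (X.prod X) (W.map (fst X X) (s.bT l : W.H X) *
        W.map (snd X X) (s.uT l : W.H X) * (W.map (fst X X) x * W.map (snd X X) y)) =
        (-1 : W.K) ^ X.dim * (bil W X (s.bT l) x * bil W X (s.uT l) y) := by
      intro l
      have h1 : W.map (snd X X) (s.uT l : W.H X) * W.map (fst X X) x =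
          (-1 : W.K) ^ (X.dim * i) • (W.map (fst X X) x * W.map (snd X X) (s.uT l : W.H X)) :=
        W.comm (W.map_mem _ (hmid (s.uT l).2)) (W.map_mem _ hx)
      rw [mul_assoc, ← mul_assoc (W.map (snd X X) _), h1, smul_mul_assoc, mul_smul_comm,
        mul_assoc, ← mul_assoc (W.map (fst X X) _), ← map_mul, ← map_mul, map_smul, W.tr_prod,
        smul_eq_mul]
      by_cases hi : i = X.dim
      · subst hi
        congr 1
        rcases Nat.even_or_odd X.dim with h | h
        · rw [h.neg_one_pow, (h.mul_left _).neg_one_pow]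
        · rw [h.neg_one_pow, (h.mul h).neg_one_pow]
      · rw [bil_eq_zero (hmid (s.bT l).2) hx (by omega),
          W.tr_eq_zero (W.mul_mem (hmid (s.bT l).2) hx) (by omega)]
        ring
    rw [Finset.sum_congr rfl fun l _ => e2 l, ← Finset.mul_sum]
    set c := W.map f (W.corr z x) with hc
    set t := x - c with ht
    have htr : t ∈ relPrimitive W f := hz x
    have hx' : x = c + t := by rw [ht]; abel
    have e4 : (-1 : W.K) ^ X.dim * ∑ l, bil W X (s.bT l) x * bil W X (s.uT l) y =
        bil W X t y := by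
      conv_rhs => rw [s.expand_uT htr]
      rw [map_sum, LinearMap.sum_apply, Finset.mul_sum]
      refine Finset.sum_congr rfl fun l _ => ?_
      have h1 : bil W X (s.bT l) x = bil W X (s.bT l) t := by
        conv_lhs => rw [hx']
        rw [map_add, hc, rel_map (s.bT l).2, zero_add]
      rw [h1, map_smul, LinearMap.smul_apply, smul_eq_mul,
        rel_symm (hmid htr) (hmid (s.bT l).2)]
      ring
    rw [e4]
    conv_lhs => rw [hx']
    rw [map_add, LinearMap.add_apply]

include hmid hz in
/-- **The primitive part of the diagonal is algebraic.** -/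
theorem dP_alg (hza : z ∈ algClasses W (X.prod Y) X.dim) : dP s ∈ algSpan W (X.prod X) := by
  have h1 : dP s = W.push (diag X) 1 - W.map (idMap f) z := by
    rw [diag_dP hmid hz s, add_sub_cancel_left]
  rw [h1]
  refine Submodule.sub_mem _ (alg_mem (alg_push (diag X) (i := X.dim) alg_one ?_))
    (algSpan_map _ (alg_mem hza))
  rw [dim_prod]
  omega

/-- the class given by the Gram matrix of the dual classes -/
noncomputable def dG (s : TB W X (relPrimitive W f)) : W.H (X.prod X) :=
  ∑ a : Fin 2 → Fin s.NT, bil W X (s.uT (a 0)) (s.uT (a 1)) •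
    (W.map (fst X X) (s.bT (a 0)) * W.map (snd X X) (s.bT (a 1)))

include hmid in
theorem dG_eq : dG s = (-1 : W.K) ^ X.dim • dP s := by
  have h1 : dG s = ∑ i, ∑ j, bil W X (s.uT i) (s.uT j) •
      (W.map (fst X X) (s.bT i : W.H X) * W.map (snd X X) (s.bT j : W.H X)) := by
    have h2 := Fintype.sum_equiv (finTwoArrowEquiv (Fin s.NT))
      (fun a : Fin 2 → Fin s.NT => bil W X (s.uT (a 0)) (s.uT (a 1)) •
        (W.map (fst X X) (s.bT (a 0) : W.H X) * W.map (snd X X) (s.bT (a 1) : W.H X)))
      (fun a => bil W X (s.uT a.1) (s.uT a.2) •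
        (W.map (fst X X) (s.bT a.1 : W.H X) * W.map (snd X X) (s.bT a.2 : W.H X)))
      (fun a => rfl)
    rw [Fintype.sum_prod_type] at h2
    exact h2
  rw [h1, dP, Finset.smul_sum]
  refine Finset.sum_congr rfl fun i _ => ?_
  have h2 : (s.uT i : W.H X) = ∑ j, (-1 : W.K) ^ X.dim • (bil W X (s.uT i) (s.uT j) •
      (s.bT j : W.H X)) := by
    conv_lhs => rw [s.expand_bT (s.uT i).2]
    refine Finset.sum_congr rfl fun j _ => ?_
    rw [rel_symm (hmid (s.uT j).2) (hmid (s.uT i).2), mul_smul]
  conv_rhs => rw [h2]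
  rw [map_sum, Finset.mul_sum, Finset.smul_sum]
  refine Finset.sum_congr rfl fun j _ => ?_
  have h3 : (-1 : W.K) ^ X.dim * (-1 : W.K) ^ X.dim = 1 := by
    rw [← mul_pow]
    norm_num
  rw [map_smul, map_smul, mul_smul_comm, mul_smul_comm, smul_smul, h3, one_smul]

include hmid hz in
theorem dG_alg (hza : z ∈ algClasses W (X.prod Y) X.dim) : dG s ∈ algSpan W (X.prod X) := by
  rw [dG_eq hmid]
  exact Submodule.smul_mem _ _ (dP_alg hmid hz s hza)

include hmid in
theorem dG_gr : dG s ∈ W.gr (X.prod X) (2 * X.dim) := by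
  rw [dG]
  refine Submodule.sum_mem _ fun a _ => Submodule.smul_mem _ _ ?_
  rw [two_mul]
  exact W.mul_mem (W.map_mem _ (hmid (s.bT _).2)) (W.map_mem _ (hmid (s.bT _).2))

end split

end Pool.Agent.TH125.Sec
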